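import Mathlib
import Pool.Agent.Helper386.D5V.Helper386_FF_RR

/-!
Spaces of functions which are finite-dimensional over several subfields.
-/

set_option autoImplicit false

namespace Pool.Agent.X332.GT

open FF IntermediateField Module

variable {k K : Type} [Field k] [Field K] [Algebra k K]

/-- the set `V` lies in a finite-dimensional subspace over the field `F` -/
def Fd (F : IntermediateField k K) (V : Set K) : Prop :=
  ∃ T : Set K, T.Finite ∧ V ⊆ (Submodule.span F T : Submodule F K)

/-- the order is at least `n` -/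
def Ge (P : Place k K) (n : ℤ) (f : K) : Prop := f = 0 ∨ n ≤ P.ord f

theorem Ge.add {P : Place k K} {n : ℤ} {f g : K} (hf : Ge P n f) (hg : Ge P n g) :
    Ge P n (f + g) := by
  rcases hf with rfl | hf
  · rwa [zero_add]
  rcases hg with rfl | hg
  · rw [add_zero]; exact Or.inr hf
  by_cases hf0 : f = 0
  · rw [hf0, zero_add]; exact Or.inr hg
  by_cases hg0 : g = 0
  · rw [hg0, add_zero]; exact Or.inr hf
  by_cases h0 : f + g = 0
  · exact Or.inl h0
  · exact Or.inr ((le_min hf hg).trans (P.ord_add hf0 hg0 h0))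

theorem Ge.neg {P : Place k K} {n : ℤ} {f : K} (hf : Ge P n f) : Ge P n (-f) := by
  rcases hf with rfl | hf
  · rw [neg_zero]; exact Or.inl rfl
  · right
    rwa [P.ord_neg]

theorem Ge.mul {P : Place k K} {n m : ℤ} {f g : K} (hf : Ge P n f) (hg : Ge P m g) :
    Ge P (n + m) (f * g) := by
  rcases hf with rfl | hf
  · rw [zero_mul]; exact Or.inl rfl
  rcases hg with rfl | hg
  · rw [mul_zero]; exact Or.inl rfl
  by_cases hf0 : f = 0
  · rw [hf0, zero_mul]; exact Or.inl rfl
  by_cases hg0 : g = 0
  · rw [hg0, mul_zero]; exact Or.inl rfl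
  right
  rw [P.ord_mul hf0 hg0]
  omega

theorem Ge.sum {P : Place k K} {n : ℤ} {ι : Type*} {s : Finset ι} {f : ι → K}
    (h : ∀ i ∈ s, Ge P n (f i)) : Ge P n (∑ i ∈ s, f i) := by
  classical
  induction s using Finset.induction_on with
  | empty => exact Or.inl (Finset.sum_empty)
  | insert a s ha ih =>
    rw [Finset.sum_insert ha]
    exact (h a (Finset.mem_insert_self a s)).add
      (ih fun i hi => h i (Finset.mem_insert_of_mem hi))

theorem Ge.mono {P : Place k K} {n m : ℤ} {f : K} (hf : Ge P n f) (h : m ≤ n) : Ge P m f := by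
  rcases hf with rfl | hf
  · exact Or.inl rfl
  · exact Or.inr (h.trans hf)

/-- sums of elements of distinct orders -/
theorem sum_ne {P : Place k K} {ι : Type*} {s : Finset ι} (hs : s.Nonempty) {f : ι → K}
    (h0 : ∀ i ∈ s, f i ≠ 0) (hinj : Set.InjOn (fun i => P.ord (f i)) s) :
    ∑ i ∈ s, f i ≠ 0 := by
  classical
  obtain ⟨i0, hi0, hmin⟩ := Finset.exists_min_image s (fun i => P.ord (f i)) hs
  intro hsum
  rw [← Finset.add_sum_erase _ _ hi0] at hsum
  have h1 : Ge P (P.ord (f i0) + 1) (∑ i ∈ s.erase i0, f i) := by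
    refine Ge.sum fun i hi => Or.inr ?_
    obtain ⟨hne, his⟩ := Finset.mem_erase.1 hi
    have h2 := hmin i his
    have h3 : P.ord (f i0) ≠ P.ord (f i) := fun h => hne (hinj his hi0 h.symm)
    omega
  have h2 : f i0 = -∑ i ∈ s.erase i0, f i := eq_neg_of_add_eq_zero_left hsum
  have h3 : Ge P (P.ord (f i0) + 1) (f i0) := by
    have h4 := h1.neg
    rwa [← h2] at h4
  rcases h3 with h3 | h3
  · exact h0 i0 hi0 h3
  · omega

/-- finitely many orders -/
theorem finite_ords {P : Place k K} {F : IntermediateField k K}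
    (hF : ∀ c ∈ F, c ≠ 0 → P.ord c = 0) {T : Set K} (hT : T.Finite) :
    {n : ℤ | ∃ v ∈ (Submodule.span F T : Submodule F K), v ≠ 0 ∧ P.ord v = n}.Finite := by
  classical
  set W : Submodule F K := Submodule.span F T with hW
  have hfin : Module.Finite F W := Module.Finite.iff_fg.2 (Submodule.fg_span hT)
  set Λ := {n : ℤ | ∃ v ∈ W, v ≠ 0 ∧ P.ord v = n} with hΛ
  choose v hv hv0 hvn using fun n : Λ => n.2
  have hli : LinearIndependent F (fun n : Λ => (⟨v n, hv n⟩ : W)) := by
    rw [linearIndependent_iff']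
    intro s g hsum
    by_contra hcon
    push Not at hcon
    obtain ⟨i, his, hi⟩ := hcon
    have h1 : ∑ n ∈ s.filter (fun n => g n ≠ 0), (g n : K) * v n = 0 := by
      have h2 := congrArg (fun w : W => (w : K)) hsum
      simp only [Submodule.coe_sum, Submodule.coe_smul, Submodule.coe_zero] at h2
      rw [← h2, Finset.sum_filter]
      refine Finset.sum_congr rfl fun n _ => ?_
      by_cases h3 : g n = 0
      · rw [if_neg (not_not.2 h3), h3, zero_smul]
      · rw [if_pos h3]
        rfl
    have hg0 : ∀ n : Λ, g n ≠ 0 → (g n : K) ≠ 0 := fun n hn h => hn (Subtype.ext h)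
    refine sum_ne (P := P) ⟨i, Finset.mem_filter.2 ⟨his, hi⟩⟩ ?_ ?_ h1
    · intro n hn
      exact mul_ne_zero (hg0 n (Finset.mem_filter.1 hn).2) (hv0 n)
    · intro n hn m hm hnm
      have e1 : P.ord ((g n : K) * v n) = n := by
        rw [P.ord_mul (hg0 n (Finset.mem_filter.1 hn).2) (hv0 n),
          hF _ (g n).2 (hg0 n (Finset.mem_filter.1 hn).2), zero_add, hvn]
      have e2 : P.ord ((g m : K) * v m) = m := by
        rw [P.ord_mul (hg0 m (Finset.mem_filter.1 hm).2) (hv0 m),
          hF _ (g m).2 (hg0 m (Finset.mem_filter.1 hm).2), zero_add, hvn]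
      have e3 : P.ord ((g n : K) * v n) = P.ord ((g m : K) * v m) := hnm
      rw [e1, e2] at e3
      exact Subtype.ext e3
  have h1 : Finite Λ := hli.finite_of_isNoetherian
  exact Set.toFinite Λ

/-- relations between residues -/
theorem exists_rel {P : Place k K} {F0 F1 : IntermediateField k K}
    (hb : ∀ c ∈ F1, P.Reg c → ∃ a ∈ F0, Ge P 1 (c - a)) {T : Set K} (hT : T.Finite) :
    ∃ r : ℕ, ∀ (s : Finset K) (n : ℤ), r < s.card →
      (∀ v ∈ s, v ∈ (Submodule.span F1 T : Submodule F1 K)) → (∀ v ∈ s, Ge P n v) →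
      ∃ a : K → F0, (∃ v ∈ s, a v ≠ 0) ∧ Ge P (n + 1) (∑ v ∈ s, (a v : K) * v) := by
  classical
  set W : Submodule F1 K := Submodule.span F1 T with hW
  have hfin : Module.Finite F1 W := Module.Finite.iff_fg.2 (Submodule.fg_span hT)
  refine ⟨Module.finrank F1 W, fun s n hs hsW hsn => ?_⟩
  have hdep : ¬ LinearIndependent F1 (fun v : s => (⟨v, hsW v v.2⟩ : W)) := by
    intro hli
    have h1 := hli.fintype_card_le_finrank
    rw [Fintype.card_coe] at h1
    omega
  rw [Fintype.linearIndependent_iff] at hdep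
  push Not at hdep
  obtain ⟨g, hg, i1, hi1⟩ := hdep
  have hg' : ∑ v : s, (g v : K) * (v : K) = 0 := by
    have h2 := congrArg (fun w : W => (w : K)) hg
    simp only [Submodule.coe_sum, Submodule.coe_smul, Submodule.coe_zero] at h2
    exact h2
  have hgK : ∀ v : s, g v ≠ 0 → (g v : K) ≠ 0 := fun v hv h => hv (Subtype.ext h)
  obtain ⟨i0, h0, hmin⟩ := Finset.exists_min_image (Finset.univ.filter fun v : s => g v ≠ 0)
    (fun v => P.ord (g v : K)) ⟨i1, by simp [hi1]⟩
  rw [Finset.mem_filter] at h0
  have hreg : ∀ v : s, P.Reg ((g v : K) / g i0) := by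
    intro v
    by_cases hv : g v = 0
    · rw [hv]
      left
      rw [ZeroMemClass.coe_zero, zero_div]
    · right
      rw [P.ord_div (hgK v hv) (hgK i0 h0.2)]
      have := hmin v (Finset.mem_filter.2 ⟨Finset.mem_univ _, hv⟩)
      omega
  choose a ha0 ha using fun v : s => hb _ (F1.div_mem (g v).2 (g i0).2) (hreg v)
  let a' : s → F0 := fun v => if v = i0 then 1 else ⟨a v, ha0 v⟩
  have ha' : ∀ v : s, Ge P 1 ((g v : K) / g i0 - a' v) := by
    intro v
    by_cases hv : v = i0
    · subst hv
      left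
      simp only [a', if_pos, OneMemClass.coe_one]
      rw [div_self (hgK v h0.2), sub_self]
    · simp only [a', if_neg hv]
      exact ha v
  refine ⟨fun v => if hv : v ∈ s then a' ⟨v, hv⟩ else 0, ⟨i0, i0.2, ?_⟩, ?_⟩
  · simp only [dif_pos i0.2, a', if_pos]
    exact one_ne_zero
  · have h1 : ∑ v ∈ s, (((if hv : v ∈ s then a' ⟨v, hv⟩ else 0 : F0)) : K) * v =
        ∑ v : s, (a' v : K) * (v : K) := by
      rw [← Finset.sum_coe_sort s]
      refine Finset.sum_congr rfl fun v _ => ?_
      rw [dif_pos v.2]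
    rw [h1]
    have h2 : ∑ v : s, (g v : K) / g i0 * (v : K) = 0 := by
      have h3 : ∑ v : s, (g v : K) / g i0 * (v : K) = (g i0 : K)⁻¹ * ∑ v : s, (g v : K) * (v : K) := by
        rw [Finset.mul_sum]
        refine Finset.sum_congr rfl fun v _ => ?_
        ring
      rw [h3, hg', mul_zero]
    have h3 : ∑ v : s, (a' v : K) * (v : K) =
        -∑ v : s, ((g v : K) / g i0 - a' v) * (v : K) := by
      simp only [sub_mul, Finset.sum_sub_distrib]
      rw [h2, zero_sub, neg_neg]
    rw [h3]
    refine Ge.neg (Ge.sum fun v _ => ?_)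
    have h4 := (ha' v).mul (hsn v v.2)
    rwa [add_comm] at h4

/-- **From two fields to the smaller field.** -/
theorem Fd.inter {P : Place k K} {F0 F1 F2 : IntermediateField k K} (h01 : F0 ≤ F1) (h02 : F0 ≤ F2)
    (hF : ∀ c ∈ F2, c ≠ 0 → P.ord c = 0) (hb : ∀ c ∈ F1, P.Reg c → ∃ a ∈ F0, Ge P 1 (c - a))
    {V : Set K} (h1 : Fd F1 V) (h2 : Fd F2 V) : Fd F0 V := by
  classical
  obtain ⟨T1, hT1, hV1⟩ := h1
  obtain ⟨T2, hT2, hV2⟩ := h2
  obtain ⟨r, hr⟩ := exists_rel hb hT1
  have hord := finite_ords hF hT2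
  -- finite generation
  have key : ∀ (c : ℕ) (Λ : Finset ℤ), Λ.card ≤ c → ∀ U : Submodule F0 K,
      (∀ v ∈ U, v ∈ (Submodule.span F1 T1 : Submodule F1 K)) →
      (∀ v ∈ U, v ≠ 0 → P.ord v ∈ Λ) → U.FG := by
    intro c
    induction c with
    | zero =>
      intro Λ hΛ U _ hU
      have h0 : U = ⊥ := by
        rw [Submodule.eq_bot_iff]
        intro v hv
        by_contra hne
        have h3 := hU v hv hne
        rw [Finset.card_eq_zero.1 (Nat.le_zero.1 hΛ)] at h3
        exact absurd h3 (Finset.notMem_empty _)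
      rw [h0]
      exact Submodule.fg_bot
    | succ c ih =>
      intro Λ hΛ U hU1 hU2
      rcases Λ.eq_empty_or_nonempty with he | hne
      · exact ih Λ (by rw [he]; exact Nat.zero_le _) U hU1 hU2
      set n := Λ.min' hne with hn
      have hUn : ∀ v ∈ U, Ge P n v := by
        intro v hv
        by_cases h0 : v = 0
        · exact Or.inl h0
        · exact Or.inr (Λ.min'_le _ (hU2 v hv h0))
      let U' : Submodule F0 K :=
        { carrier := {v | v ∈ U ∧ Ge P (n + 1) v}
          add_mem' := fun ha hb => ⟨U.add_mem ha.1 hb.1, ha.2.add hb.2⟩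
          zero_mem' := ⟨U.zero_mem, Or.inl rfl⟩
          smul_mem' := by
            rintro a v ⟨hv1, hv2⟩
            refine ⟨U.smul_mem a hv1, ?_⟩
            have h3 : Ge P 0 (a : K) := by
              by_cases h0 : (a : K) = 0
              · exact Or.inl h0
              · exact Or.inr (hF _ (h02 a.2) h0).ge
            have h4 := h3.mul hv2
            rw [zero_add] at h4
            exact h4 }
      have hU'm : ∀ v, v ∈ U' ↔ v ∈ U ∧ Ge P (n + 1) v := fun v => Iff.rfl
      have hU'fg : U'.FG := by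
        refine ih (Λ.erase n) ?_ U' (fun v hv => hU1 v hv.1) ?_
        · rw [Finset.card_erase_of_mem (Λ.min'_mem hne)]
          omega
        · intro v hv h0
          refine Finset.mem_erase.2 ⟨?_, hU2 v hv.1 h0⟩
          rcases hv.2 with h | h
          · exact absurd h h0
          · omega
      obtain ⟨Q, hQ⟩ := Submodule.exists_isCompl U'
      have hQfg : (Q ⊓ U).FG := by
        have h3 : Module.rank F0 (Q ⊓ U : Submodule F0 K) ≤ (r : ℕ) := by
          refine rank_le fun s hs => ?_
          by_contra hcard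
          push Not at hcard
          let ev : (Q ⊓ U : Submodule F0 K) ↪ K := ⟨Subtype.val, Subtype.val_injective⟩
          let s' : Finset K := s.map ev
          have hs'c : r < s'.card := by
            rw [Finset.card_map]
            exact hcard
          have hs' : ∀ v ∈ s', v ∈ Q ⊓ U := by
            intro v hv
            obtain ⟨w, _, rfl⟩ := Finset.mem_map.1 hv
            exact w.2
          obtain ⟨a, ⟨v0, hv0, hav0⟩, ha⟩ := hr s' n hs'c (fun v hv => hU1 v (hs' v hv).2)
            (fun v hv => hUn v (hs' v hv).2)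
          have h4 : ∑ v ∈ s', (a v : K) * v ∈ Q ⊓ U :=
            Submodule.sum_mem _ fun v hv => (Q ⊓ U).smul_mem (a v) (hs' v hv)
          have h5 : ∑ v ∈ s', (a v : K) * v = 0 := by
            have h6 : ∑ v ∈ s', (a v : K) * v ∈ U' ⊓ Q := ⟨⟨h4.2, ha⟩, h4.1⟩
            rw [hQ.inf_eq_bot] at h6
            exact h6
          obtain ⟨w0, hw0, rfl⟩ := Finset.mem_map.1 hv0
          rw [linearIndependent_iff'] at hs
          have h6 := hs Finset.univ (fun w => a ((w : (Q ⊓ U : Submodule F0 K)) : K)) (by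
            apply Subtype.ext
            rw [Submodule.coe_sum]
            simp only [Submodule.coe_smul, Submodule.coe_zero]
            rw [Finset.sum_map] at h5
            rw [← Finset.sum_coe_sort s] at h5
            exact h5) ⟨w0, hw0⟩ (Finset.mem_univ _)
          exact hav0 h6
        have h4 : Module.Finite F0 (Q ⊓ U : Submodule F0 K) := by
          rw [← Module.rank_lt_aleph0_iff]
          exact h3.trans_lt Cardinal.natCast_lt_aleph0
        exact Module.Finite.iff_fg.1 h4
      have hUeq : U = U' ⊔ (Q ⊓ U) := by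
        apply le_antisymm
        · intro v hv
          have h3 : v ∈ U' ⊔ Q := by
            rw [hQ.sup_eq_top]
            exact Submodule.mem_top
          obtain ⟨a, ha, b, hb', hab⟩ := Submodule.mem_sup.1 h3
          refine Submodule.mem_sup.2 ⟨a, ha, b, ⟨hb', ?_⟩, hab⟩
          have h4 : b = v - a := by rw [← hab]; ring
          rw [h4]
          exact U.sub_mem hv ha.1
        · exact sup_le (fun v hv => hv.1) inf_le_right
      rw [hUeq]
      exact hU'fg.sup hQfg
  -- the span
  let U : Submodule F0 K := Submodule.span F0 V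
  have hUle : ∀ (F : IntermediateField k K) (_ : F0 ≤ F) (T : Set K),
      V ⊆ (Submodule.span F T : Submodule F K) →
      ∀ v ∈ U, v ∈ (Submodule.span F T : Submodule F K) := by
    intro F hF T hT v hv
    induction hv using Submodule.span_induction with
    | mem x hx => exact hT hx
    | zero => exact Submodule.zero_mem _
    | add x y _ _ hx hy => exact Submodule.add_mem _ hx hy
    | smul c x _ hx => exact Submodule.smul_mem _ (⟨c, hF c.2⟩ : F) hx
  have hfg := key _ hord.toFinset le_rfl U (hUle F1 h01 T1 hV1) (fun v hv h0 => by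
    rw [Set.Finite.mem_toFinset]
    exact ⟨v, hUle F2 h02 T2 hV2 v hv, h0, rfl⟩)
  obtain ⟨t, ht⟩ := hfg
  refine ⟨t, t.finite_toSet, fun v hv => ?_⟩
  rw [ht]
  exact Submodule.subset_span hv

end Pool.Agent.X332.GT
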