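import Mathlib
import Pool.Agent.X332.GT.Fdg

/-!
Spaces of functions which are finite-dimensional in every direction.
-/

set_option autoImplicit false

namespace Pool.Agent.X332.GT

open FF IntermediateField Module

variable {k K : Type} [Field k] [Field K] [Algebra k K]

theorem alg_of_le {L0 C : IntermediateField k K} (L1 : IntermediateField C K)
    (h : ∀ z ∈ L0, z ∈ L1) {z : K} (hz : IsAlgebraic L0 z) : IsAlgebraic L1 z := by
  let φ : L0 →+* L1 :=
    { toFun := fun x => ⟨x, h x x.2⟩
      map_one' := rfl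
      map_mul' := fun _ _ => rfl
      map_zero' := rfl
      map_add' := fun _ _ => rfl }
  obtain ⟨p, hp, h0⟩ := hz
  refine ⟨p.map φ, (Polynomial.map_ne_zero_iff φ.injective).2 hp, ?_⟩
  rw [Polynomial.aeval_def, Polynomial.eval₂_map]
  exact h0

variable {w : ℕ} {u : Fin w → K}

open scoped algebraAdjoinAdjoin in
theorem trans_adjoin (hu : AlgebraicIndependent k u) {S : Set (Fin w)} {i : Fin w} (hi : i ∉ S) :
    Transcendental (adjoin k (u '' S)) (u i) := by
  intro h
  exact hu.transcendental_adjoin hi (h.restrictScalars (Algebra.adjoin k (u '' S)))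

theorem isFF_adjoin [Algebra.EssFiniteType k K] (hu : IsTranscendenceBasis k u) {S : Set (Fin w)}
    {i : Fin w} (hi : ∀ j, j ∈ S ↔ j ≠ i) : IsFF (adjoin k (u '' S)) K := by
  set C := adjoin k (u '' S) with hC
  refine IsFF.of_finite (f := u i) (trans_adjoin hu.1 (fun h => (hi i).1 h rfl)) ?_
  have h2 : Algebra.EssFiniteType C K := Algebra.EssFiniteType.of_comp k C K
  have h3 : Algebra.EssFiniteType C⟮u i⟯ K := Algebra.EssFiniteType.of_comp C C⟮u i⟯ K
  have h4 : ∀ z : K, IsAlgebraic C⟮u i⟯ z := by
    intro z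
    refine alg_of_le (L0 := adjoin k (Set.range u)) _ ?_ (hu.isAlgebraic_field.isAlgebraic z)
    have h5 : adjoin k (Set.range u) ≤ (C⟮u i⟯).restrictScalars k := by
      rw [adjoin_le_iff]
      rintro _ ⟨j, rfl⟩
      by_cases hj : j = i
      · subst hj
        exact mem_adjoin_simple_self C (u j)
      · have h6 : u j ∈ C := subset_adjoin k _ ⟨j, (hi j).2 hj, rfl⟩
        exact (C⟮u i⟯).algebraMap_mem (⟨u j, h6⟩ : C)
    exact fun z hz => h5 hz
  obtain ⟨s, hs⟩ := IntermediateField.fg_top C⟮u i⟯ K
  have h5 : FiniteDimensional C⟮u i⟯ (adjoin C⟮u i⟯ (s : Set K)) :=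
    finiteDimensional_adjoin fun x _ => (h4 x).isIntegral
  rw [hs] at h5
  exact topEquiv.toLinearEquiv.finiteDimensional

/-- a place which is trivial on a subfield, as a place over the ground field -/
def rs {C : IntermediateField k K} (P : Place C K) : Place k K :=
  ⟨P.ord, P.ord_zero, P.ord_mul, P.ord_add, fun {c} hc => by
    rw [IsScalarTower.algebraMap_apply k C K]
    exact P.ord_const (by rwa [Ne, map_eq_zero]), P.surj⟩

theorem rs_ord {C : IntermediateField k K} (P : Place C K) (f : K) : (rs P).ord f = P.ord f := rfl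

theorem rs_triv {C : IntermediateField k K} (P : Place C K) {c : K} (hc : c ∈ C) (h0 : c ≠ 0) :
    (rs P).ord c = 0 := by
  have h1 := P.ord_const (c := (⟨c, hc⟩ : C)) (fun h => h0 (congrArg Subtype.val h))
  exact h1

section

variable {P : Place k K} {F0 : IntermediateField k K} {t : K}

theorem Ge.pow {f : K} (hf : Ge P 0 f) (n : ℕ) : Ge P 0 (f ^ n) := by
  induction n with
  | zero =>
    rw [pow_zero]
    exact Or.inr P.ord_one.ge
  | succ n ih =>
    rw [pow_succ]
    have h1 := ih.mul hf
    rwa [add_zero] at h1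

theorem ge_mem (hF0 : ∀ c ∈ F0, c ≠ 0 → P.ord c = 0) (a : F0) : Ge P 0 (a : K) := by
  by_cases h0 : (a : K) = 0
  · exact Or.inl h0
  · exact Or.inr (hF0 _ a.2 h0).ge

theorem ge_aeval (hF0 : ∀ c ∈ F0, c ≠ 0 → P.ord c = 0) (ht : 0 < P.ord t) (p : Polynomial F0) :
    Ge P 0 (Polynomial.aeval t p) := by
  rw [Polynomial.aeval_eq_sum_range]
  refine Ge.sum fun i _ => ?_
  rw [Algebra.smul_def]
  have h1 := (ge_mem hF0 (p.coeff i)).mul (Ge.pow (P := P) (Or.inr ht.le : Ge P 0 t) i)
  rw [add_zero] at h1
  exact h1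

theorem ge_aeval_sub (hF0 : ∀ c ∈ F0, c ≠ 0 → P.ord c = 0) (ht : 0 < P.ord t)
    (p : Polynomial F0) : Ge P 1 (Polynomial.aeval t p - (p.coeff 0 : K)) := by
  have h1 : Polynomial.aeval t p - (p.coeff 0 : K) = Polynomial.aeval t p.divX * t := by
    conv_lhs => rw [← Polynomial.divX_mul_X_add p]
    rw [map_add, map_mul, Polynomial.aeval_X, Polynomial.aeval_C, Polynomial.coeff_add,
      Polynomial.mul_coeff_zero, Polynomial.coeff_X_zero, mul_zero, zero_add,
      Polynomial.coeff_C_zero]
    exact add_sub_cancel_right _ _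
  rw [h1]
  have h2 := (ge_aeval hF0 ht p.divX).mul (Or.inr (by omega) : Ge P 1 t)
  rwa [zero_add] at h2

theorem ord_unit (hF0 : ∀ c ∈ F0, c ≠ 0 → P.ord c = 0) (ht : 0 < P.ord t) {p : Polynomial F0}
    (hp : p.coeff 0 ≠ 0) : Polynomial.aeval t p ≠ 0 ∧ P.ord (Polynomial.aeval t p) = 0 := by
  have h1 := ge_aeval_sub hF0 ht p
  have h2 := ge_aeval hF0 ht p
  have h0 : (p.coeff 0 : K) ≠ 0 := fun h => hp (Subtype.ext h)
  have h3 : ¬ Ge P 1 (Polynomial.aeval t p) := by
    intro h
    have h4 : Ge P 1 (p.coeff 0 : K) := by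
      have h5 := h.add h1.neg
      have h6 : Polynomial.aeval t p + -(Polynomial.aeval t p - (p.coeff 0 : K)) =
          (p.coeff 0 : K) := by ring
      rwa [h6] at h5
    rcases h4 with h4 | h4
    · exact h0 h4
    · rw [hF0 _ (p.coeff 0).2 h0] at h4
      omega
  unfold Ge at h2 h3
  push Not at h3
  refine ⟨h3.1, ?_⟩
  have h4 := h2.resolve_left h3.1
  have h5 := h3.2
  omega

/-- the residue field of a rational function field -/
theorem residue (hF0 : ∀ c ∈ F0, c ≠ 0 → P.ord c = 0) (ht : 0 < P.ord t) {c : K}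
    (hreg : P.Reg c) : ∀ (n : ℕ) (p q : Polynomial F0), q.natDegree ≤ n → q ≠ 0 →
      c * Polynomial.aeval t q = Polynomial.aeval t p → ∃ a ∈ F0, Ge P 1 (c - a) := by
  intro n
  induction n with
  | zero =>
    intro p q hq hq0 h
    have h1 : q.coeff 0 ≠ 0 := by
      intro h2
      apply hq0
      rw [Polynomial.eq_C_of_natDegree_le_zero hq, h2, map_zero]
    obtain ⟨e1, e2⟩ := ord_unit hF0 ht h1
    refine ⟨p.coeff 0 / q.coeff 0, F0.div_mem (p.coeff 0).2 (q.coeff 0).2, ?_⟩
    have h3 : (q.coeff 0 : K) ≠ 0 := fun h => h1 (Subtype.ext h)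
    have h4 : (c - (p.coeff 0 : K) / q.coeff 0) * Polynomial.aeval t q =
        (Polynomial.aeval t p - (p.coeff 0 : K)) -
          (p.coeff 0 : K) / q.coeff 0 * (Polynomial.aeval t q - (q.coeff 0 : K)) := by
      rw [sub_mul, h, mul_sub, div_mul_cancel₀ _ h3]
      ring
    have h5 : Ge P 1 ((c - (p.coeff 0 : K) / q.coeff 0) * Polynomial.aeval t q) := by
      rw [h4, sub_eq_add_neg]
      refine (ge_aeval_sub hF0 ht p).add (Ge.neg ?_)
      have h6 := (ge_mem hF0 (p.coeff 0 / q.coeff 0)).mul (ge_aeval_sub hF0 ht q)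
      rw [zero_add] at h6
      exact h6
    by_cases h6 : c - (p.coeff 0 : K) / q.coeff 0 = 0
    · exact Or.inl h6
    · right
      rcases h5 with h5 | h5
      · exact absurd h5 (mul_ne_zero h6 e1)
      · rwa [P.ord_mul h6 e1, e2, add_zero] at h5
  | succ n ih =>
    intro p q hq hq0 h
    by_cases h1 : q.coeff 0 = 0
    · have hqX : q = q.divX * Polynomial.X := by
        conv_lhs => rw [← Polynomial.divX_mul_X_add q, h1, map_zero, add_zero]
      have hqd : q.divX ≠ 0 := by
        intro h2
        apply hq0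
        rw [hqX, h2, zero_mul]
      have hdeg : q.divX.natDegree ≤ n := by
        rw [Polynomial.natDegree_divX_eq_natDegree_tsub_one]
        omega
      have ht0 : t ≠ 0 := by
        rintro rfl
        rw [P.ord_zero] at ht
        omega
      by_cases h2 : p.coeff 0 = 0
      · have hpX : p = p.divX * Polynomial.X := by
          conv_lhs => rw [← Polynomial.divX_mul_X_add p, h2, map_zero, add_zero]
        refine ih p.divX q.divX hdeg hqd ?_
        rw [hqX, hpX, map_mul, map_mul, Polynomial.aeval_X, ← mul_assoc] at h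
        exact mul_right_cancel₀ ht0 h
      · exfalso
        obtain ⟨e1, e2⟩ := ord_unit hF0 ht h2
        have h3 : Ge P 1 (Polynomial.aeval t p) := by
          rw [← h, hqX, map_mul, Polynomial.aeval_X, ← mul_assoc]
          have h4 : Ge P 0 c := hreg
          have h5 := (h4.mul (ge_aeval hF0 ht q.divX)).mul (Or.inr (by omega) : Ge P 1 t)
          rwa [add_zero, zero_add] at h5
        rcases h3 with h3 | h3
        · exact e1 h3
        · omega
    · obtain ⟨e1, e2⟩ := ord_unit hF0 ht h1
      refine ⟨p.coeff 0 / q.coeff 0, F0.div_mem (p.coeff 0).2 (q.coeff 0).2, ?_⟩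
      have h3 : (q.coeff 0 : K) ≠ 0 := fun h => h1 (Subtype.ext h)
      have h4 : (c - (p.coeff 0 : K) / q.coeff 0) * Polynomial.aeval t q =
          (Polynomial.aeval t p - (p.coeff 0 : K)) -
            (p.coeff 0 : K) / q.coeff 0 * (Polynomial.aeval t q - (q.coeff 0 : K)) := by
        rw [sub_mul, h, mul_sub, div_mul_cancel₀ _ h3]
        ring
      have h5 : Ge P 1 ((c - (p.coeff 0 : K) / q.coeff 0) * Polynomial.aeval t q) := by
        rw [h4, sub_eq_add_neg]
        refine (ge_aeval_sub hF0 ht p).add (Ge.neg ?_)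
        have h6 := (ge_mem hF0 (p.coeff 0 / q.coeff 0)).mul (ge_aeval_sub hF0 ht q)
        rw [zero_add] at h6
        exact h6
      by_cases h6 : c - (p.coeff 0 : K) / q.coeff 0 = 0
      · exact Or.inl h6
      · right
        rcases h5 with h5 | h5
        · exact absurd h5 (mul_ne_zero h6 e1)
        · rwa [P.ord_mul h6 e1, e2, add_zero] at h5

end

/-- **Finite-dimensional in every direction.** -/
theorem fd_grid [CharZero k] [Algebra.EssFiniteType k K] (hu : IsTranscendenceBasis k u)
    (i0 : Fin w) {V : Set K}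
    (h : ∀ i, Fd (adjoin k (u '' ((Finset.univ.erase i : Finset (Fin w)) : Set (Fin w)))) V) :
    Fd (⊥ : IntermediateField k K) V := by
  classical
  have key : ∀ R : Finset (Fin w), i0 ∉ R →
      Fd (adjoin k (u '' (((Finset.univ.erase i0) \ R : Finset (Fin w)) : Set (Fin w)))) V := by
    intro R
    induction R using Finset.induction_on with
    | empty =>
      intro _
      rw [Finset.sdiff_empty]
      exact h i0
    | insert a R ha ih =>
      intro hi
      rw [Finset.mem_insert, not_or] at hi
      have hih := ih hi.2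
      have hne : a ≠ i0 := fun h => hi.1 h.symm
      set S1 : Finset (Fin w) := (Finset.univ.erase i0) \ R with hS1
      set S0 : Finset (Fin w) := (Finset.univ.erase i0) \ (insert a R) with hS0
      have hS : S1 = insert a S0 := by
        ext j
        simp only [hS1, hS0, Finset.mem_sdiff, Finset.mem_erase, Finset.mem_univ, and_true,
          Finset.mem_insert, not_or]
        by_cases hj : j = a
        · subst hj
          simp [hne, ha]
        · simp [hj]
      have hS0a : S0 ⊆ Finset.univ.erase a := by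
        intro j hj
        simp only [hS0, Finset.mem_sdiff, Finset.mem_erase, Finset.mem_univ, and_true,
          Finset.mem_insert, not_or] at hj ⊢
        exact hj.2.1
      set F2 := adjoin k (u '' ((Finset.univ.erase a : Finset (Fin w)) : Set (Fin w))) with hF2
      set F0 := adjoin k (u '' (S0 : Set (Fin w))) with hF0
      set F1 := adjoin k (u '' (S1 : Set (Fin w))) with hF1
      have h02 : F0 ≤ F2 := adjoin.mono _ _ _ (Set.image_mono (by exact_mod_cast hS0a))
      have h01 : F0 ≤ F1 := by
        refine adjoin.mono _ _ _ (Set.image_mono ?_)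
        rw [hS]
        exact_mod_cast Finset.subset_insert a S0
      have hFF : IsFF F2 K := isFF_adjoin hu (i := a) (fun j => by simp)
      have htr : Transcendental F2 (u a) := trans_adjoin hu.1 (by simp)
      have hc2 : CharZero F2 := charZero_of_injective_algebraMap (algebraMap k F2).injective
      obtain ⟨S, hS', -, hsum⟩ := zeros htr
      obtain ⟨Q, hQ⟩ : ∃ Q, Q ∈ S := by
        by_contra hcon
        push Not at hcon
        rw [Finset.eq_empty_of_forall_notMem hcon, Finset.sum_empty] at hsum
        have hfin : FiniteDimensional F2⟮u a⟯ K := IsFF.finite htr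
        have := Module.finrank_pos (R := F2⟮u a⟯) (M := K)
        omega
      have hQ0 : 0 < (rs Q).ord (u a) := (hS' Q).1 hQ
      have htriv : ∀ c ∈ F2, c ≠ 0 → (rs Q).ord c = 0 := fun c hc h0 => rs_triv Q hc h0
      refine Fd.inter (P := rs Q) h01 h02 htriv ?_ hih (h a)
      intro c hc hreg
      have hc' : c ∈ (F0⟮u a⟯ : IntermediateField F0 K) := by
        have h5 : F1 = (F0⟮u a⟯ : IntermediateField F0 K).restrictScalars k := by
          rw [hF1, hS, hF0, adjoin_adjoin_left, Finset.coe_insert, Set.image_insert_eq,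
            Set.union_singleton]
        rw [h5] at hc
        exact hc
      obtain ⟨r, s, hrs⟩ := (mem_adjoin_simple_iff F0 c).1 hc'
      by_cases hs0 : Polynomial.aeval (u a) s = 0
      · refine ⟨0, F0.zero_mem, Or.inl ?_⟩
        rw [hrs, hs0, div_zero, sub_zero]
      · refine residue (fun c hc h0 => htriv c (h02 hc) h0) hQ0 hreg s.natDegree r s le_rfl ?_ ?_
        · rintro rfl
          exact hs0 (map_zero _)
        · rw [hrs, div_mul_cancel₀ _ hs0]
  have h1 := key (Finset.univ.erase i0) (by simp)
  rw [Finset.sdiff_self, Finset.coe_empty, Set.image_empty, adjoin_empty] at h1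
  exact h1

/-- a finite-dimensional space over the ground field -/
theorem Fd.bot {V : Set K} (h : Fd (⊥ : IntermediateField k K) V) :
    ∃ W : Submodule k K, W.FG ∧ V ⊆ W := by
  obtain ⟨T, hT, hV⟩ := h
  refine ⟨Submodule.span k T, Submodule.fg_span hT, fun v hv => ?_⟩
  have h1 : v ∈ (Submodule.span (⊥ : IntermediateField k K) T :
      Submodule (⊥ : IntermediateField k K) K) := hV hv
  clear hv
  induction h1 using Submodule.span_induction with
  | mem x hx => exact Submodule.subset_span hx
  | zero => exact Submodule.zero_mem _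
  | add x y _ _ hx hy => exact Submodule.add_mem _ (hx) (hy)
  | smul c x _ hx =>
    obtain ⟨c', hc'⟩ := IntermediateField.mem_bot.1 c.2
    have h2 : c • x = c' • x := by
      rw [Algebra.smul_def c' x, hc']
      rfl
    rw [h2]
    exact Submodule.smul_mem _ c' hx

end Pool.Agent.X332.GT
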