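import Mathlib
import Pool.Agent.X332.GT.Grid
import Pool.Agent.TH143.GT.Pull

/-!
Finiteness of the space of the values of the regular tensors on a frame.
-/

set_option autoImplicit false

namespace Pool.Agent.X332.GT

open FF IntermediateField Module IsDedekindDomain Pool.Agent.W602.GT Pool.Agent.TH143.GT
open Pool.Agent.W603.LV hiding Ge

variable {k K : Type} [Field k] [Field K] [Algebra k K]

theorem reg_ge {P : Place k K} {f : K} : P.Reg f ↔ Ge P 0 f := Iff.rfl

section

variable {C : IntermediateField k K} {τ : K}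

/-- A derivation which preserves `C` and maps `τ` to `C` is regular at almost all places. -/
theorem finite_bad [CharZero k] [hFF : IsFF C K] (hτ : Transcendental C τ)
    (D : Derivation k K K) (hC : ∀ c ∈ C, D c ∈ C) (hDτ : D τ ∈ C) :
    {P : Place C K | ¬ DerReg (rs P) D}.Finite := by
  classical
  open scoped algebraAdjoinAdjoin in
  have hc2 : CharZero C := charZero_of_injective_algebraMap (algebraMap k C).injective
  let A := Algebra.adjoin C {τ}
  let e := Polynomial.algEquivOfTranscendental C τ hτ
  have hpid : IsPrincipalIdealRing A := IsPrincipalIdealRing.of_surjective e.toRingEquiv e.surjective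
  have hded : IsDedekindDomain A := inferInstance
  have hfin := IsFF.finite hτ
  have hchar : CharZero C⟮τ⟯ := charZero_of_injective_algebraMap (algebraMap C C⟮τ⟯).injective
  have hsep : Algebra.IsSeparable C⟮τ⟯ K := inferInstance
  let B := integralClosure A K
  have hB1 : IsDedekindDomain B := integralClosure.isDedekindDomain A C⟮τ⟯ K
  have hB2 : IsFractionRing B K := integralClosure.isFractionRing_of_finite_extension C⟮τ⟯ K
  have hB3 : Module.Finite A B := IsIntegralClosure.finite A C⟮τ⟯ K B
  obtain ⟨G, hG⟩ := hB3.fg_top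
  have hDA : ∀ a ∈ A, D a ∈ A := by
    intro a ha
    change a ∈ Algebra.adjoin C {τ} at ha
    change D a ∈ Algebra.adjoin C {τ}
    induction ha using Algebra.adjoin_induction with
    | mem z hz =>
      rw [Set.mem_singleton_iff] at hz
      subst hz
      exact (Algebra.adjoin C {z}).algebraMap_mem (⟨_, hDτ⟩ : C)
    | algebraMap r => exact (Algebra.adjoin C {τ}).algebraMap_mem (⟨_, hC _ r.2⟩ : C)
    | add f g hf' hg' hf hg => rw [map_add]; exact Subalgebra.add_mem _ hf hg
    | mul f g hf' hg' hf hg =>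
      rw [D.leibniz]
      exact Subalgebra.add_mem _ (Subalgebra.mul_mem _ hf' hg) (Subalgebra.mul_mem _ hg' hf)
  refine (((finite_support (k := C) (K := K) τ)).union
    ((Set.Finite.biUnion G.finite_toSet fun g _ => finite_support (k := C) (D (g : K))))).subset ?_
  intro P hP
  rw [Set.mem_setOf_eq] at hP
  by_contra hcon
  rw [Set.mem_union, not_or] at hcon
  obtain ⟨h1, h2⟩ := hcon
  rw [Set.mem_setOf_eq, not_not] at h1
  apply hP
  have hregA : ∀ a ∈ A, P.Reg a := by
    intro a ha
    change a ∈ Algebra.adjoin C {τ} at ha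
    induction ha using Algebra.adjoin_induction with
    | mem z hz =>
      rw [Set.mem_singleton_iff] at hz
      subst hz
      exact Or.inr h1.ge
    | algebraMap r => exact P.reg_const r
    | add f g hf' hg' hf hg => exact P.reg_add hf hg
    | mul f g hf' hg' hf hg => exact P.reg_mul hf hg
  have hregB : ∀ b : B, P.Reg (algebraMap B K b) := by
    intro b
    exact P.reg_of_isIntegral (A := A) (fun a => hregA a a.2) b.2
  have hDB : ∀ b : B, P.Reg (D (algebraMap B K b)) := by
    intro b
    have hb : b ∈ Submodule.span A (G : Set B) := by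
      rw [hG]
      exact Submodule.mem_top
    induction hb using Submodule.span_induction with
    | mem x hx =>
      have h3 : P.ord (D (x : K)) = 0 := by
        by_contra h4
        exact h2 (Set.mem_biUnion hx h4)
      exact Or.inr h3.ge
    | zero =>
      rw [map_zero, map_zero]
      exact P.reg_zero
    | add x y _ _ hx hy =>
      rw [map_add, map_add]
      exact P.reg_add hx hy
    | smul a x _ hx =>
      have h3 : algebraMap B K (a • x) = (a : K) * algebraMap B K x := by
        rw [Algebra.smul_def, map_mul]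
        rfl
      rw [h3, D.leibniz, smul_eq_mul, smul_eq_mul]
      exact P.reg_add (P.reg_mul (hregA _ a.2) hx)
        (P.reg_mul (hregB x) (hregA _ (hDA _ a.2)))
  obtain ⟨v, hv⟩ := exists_placeOf_eq (k := C) (B := B) P hregB
  intro f hf
  change P.Reg f at hf
  change P.Reg (D f)
  by_cases hf0 : f = 0
  · left; rw [hf0, map_zero]
  obtain ⟨n, d, h⟩ := v.exists_primeCompl_mul_eq_of_integer f
    ((placeOf_nonneg (k := C) v hf0).1 (by
      rw [hv]
      exact (Place.reg_iff _ hf0).1 hf))
  have hd : ¬ P.red (algebraMap B K d) = 0 := by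
    rw [← hv, placeOf_red_eq_zero]; exact d.2
  rw [Place.red_eq_zero_iff _ (hregB d)] at hd
  push Not at hd
  have e : D f = (D (algebraMap B K n) - f * D (algebraMap B K d)) * (algebraMap B K d)⁻¹ := by
    rw [eq_mul_inv_iff_mul_eq₀ hd.1, ← h, D.leibniz]
    simp only [smul_eq_mul]
    ring
  rw [e]
  apply Place.reg_mul
  · rw [sub_eq_add_neg]
    exact Place.reg_add _ (hDB n) (Place.reg_neg _ (Place.reg_mul _ hf (hDB d)))
  · right
    rw [Place.ord_inv]
    have := hd.2
    omega

end

/-- a common denominator of a frame at a prime divisor -/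
theorem exists_den [CharZero k] [Algebra.EssFiniteType k K] {w q : ℕ}
    (hw : Algebra.trdeg k K = w) (P : Place k K) (hP : Divisorial w P)
    (D : Fin q → Derivation k K K) : ∃ g : K, g ≠ 0 ∧ ∀ l, DerReg P (g • D l) := by
  classical
  obtain ⟨y', E', i0, hb', hE', hi0, hy'r, hpres⟩ := Pool.Agent.W240.PG.Frame.main
    Pool.Agent.W762.PG.main k K w hw (fun y hy => fin_adjoin y hy) P hP
  have h' : Dual y' E' := ⟨hb', hE'⟩
  obtain ⟨t, ht0, ht⟩ := P.surj
  set M : ℕ := ∑ l, ∑ j, (-P.ord (D l (y' j))).toNat with hM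
  have hMle : ∀ l j, -(M : ℤ) ≤ P.ord (D l (y' j)) := by
    intro l j
    have h1 : (-P.ord (D l (y' j))).toNat ≤ ∑ j, (-P.ord (D l (y' j))).toNat :=
      Finset.single_le_sum (f := fun j => (-P.ord (D l (y' j))).toNat)
        (fun _ _ => Nat.zero_le _) (Finset.mem_univ j)
    have h2 : ∑ j, (-P.ord (D l (y' j))).toNat ≤ M :=
      Finset.single_le_sum (f := fun l => ∑ j, (-P.ord (D l (y' j))).toNat)
        (fun _ _ => Nat.zero_le _) (Finset.mem_univ l)
    omega
  refine ⟨t ^ M, pow_ne_zero _ ht0, fun l f hf => ?_⟩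
  rw [h'.expand (D l), Derivation.smul_apply, der_sum, smul_eq_mul, Finset.mul_sum]
  change _ ∈ P.O
  refine sum_mem fun j _ => ?_
  rw [smul_eq_mul, ← mul_assoc]
  refine mul_mem ?_ (hpres j f hf)
  change P.Reg _
  by_cases h0 : D l (y' j) = 0
  · rw [h0, mul_zero]
    exact P.reg_zero
  · right
    rw [P.ord_mul (pow_ne_zero _ ht0) h0, P.ord_pow, ht, mul_one]
    have := hMle l j
    omega

/-- `f (dy_1 ∧ … ∧ dy_e) ^ N` is regular at all prime divisors. -/
def PReg (k : Type) {K : Type} [Field k] [Field K] [Algebra k K] (w N : ℕ) {e : ℕ} (f : K)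
    (y : Fin e → K) : Prop :=
  ∀ P : Place k K, Divisorial w P → ∀ D : Fin e → Derivation k K K, (∀ i, DerReg P (D i)) →
    P.Reg (f * (Matrix.of fun i j => D i (y j)).det ^ N)

/-- the value on constant combinations of a frame -/
noncomputable def vl {w : ℕ} (E : Fin w → Derivation k K K) (N : ℕ) {e : ℕ} (f : K)
    (y : Fin e → K) (c : Fin e → Fin w → k) : K :=
  f * (Matrix.of fun i j => ∑ l, algebraMap k K (c i l) * E l (y j)).det ^ N

theorem derReg_const {P : Place k K} {w : ℕ} {E : Fin w → Derivation k K K} {g : K}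
    (h : ∀ l, DerReg P (g • E l)) (c : Fin w → k) :
    DerReg P (g • ∑ l, algebraMap k K (c l) • E l) := by
  intro f hf
  rw [Derivation.smul_apply, der_sum, smul_eq_mul, Finset.mul_sum]
  change _ ∈ P.O
  refine sum_mem fun l _ => ?_
  have h1 : g * (algebraMap k K (c l) • E l f) = algebraMap k K (c l) * (g • E l) f := by
    rw [Derivation.smul_apply, smul_eq_mul, smul_eq_mul]
    ring
  rw [h1]
  exact mul_mem (P.reg_const _) (h l f hf)

theorem PReg.val {P : Place k K} {w N e : ℕ} {f : K} {y : Fin e → K} (h : PReg k w N f y)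
    (hP : Divisorial w P) {v : ℕ} {E : Fin v → Derivation k K K} {g : K}
    (hg : ∀ l, DerReg P (g • E l)) (c : Fin e → Fin v → k) :
    P.Reg (g ^ (e * N) * vl E N f y c) := by
  have h1 := h P hP (fun i => g • ∑ l, algebraMap k K (c i l) • E l) fun i => derReg_const hg (c i)
  have h2 : (Matrix.of fun i j => (g • ∑ l, algebraMap k K (c i l) • E l) (y j)).det =
      g ^ e * (Matrix.of fun i j => ∑ l, algebraMap k K (c i l) * E l (y j)).det := by
    have h3 : (Matrix.of fun i j => (g • ∑ l, algebraMap k K (c i l) • E l) (y j)) =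
        g • (Matrix.of fun i j => ∑ l, algebraMap k K (c i l) * E l (y j) :
          Matrix (Fin e) (Fin e) K) := by
      ext i j
      rw [Matrix.of_apply, Derivation.smul_apply, der_sum]
      rfl
    rw [h3, Matrix.det_smul, Fintype.card_fin]
  rw [h2] at h1
  have h3 : g ^ (e * N) * vl E N f y c = f *
      (g ^ e * (Matrix.of fun i j => ∑ l, algebraMap k K (c i l) * E l (y j)).det) ^ N := by
    unfold vl
    rw [mul_pow, ← pow_mul]
    ring
  rw [h3]
  exact h1

/-- **Finiteness.** -/
theorem exists_fg [CharZero k] [Algebra.EssFiniteType k K] {n : ℕ}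
    (hn : Algebra.trdeg k K = (n + 1 : ℕ)) {u : Fin (n + 1) → K}
    {E : Fin (n + 1) → Derivation k K K} (hu : Dual u E) (e N : ℕ) :
    ∃ W : Submodule k K, W.FG ∧ ∀ (f : K) (y : Fin e → K), PReg k (n + 1) N f y →
      ∀ c, vl E N f y c ∈ W := by
  classical
  set V : Set K := {x | ∃ (f : K) (y : Fin e → K), PReg k (n + 1) N f y ∧ ∃ c, x = vl E N f y c}
    with hV
  suffices h : Fd (⊥ : IntermediateField k K) V by
    obtain ⟨W, hW, hVW⟩ := h.bot
    exact ⟨W, hW, fun f y hf c => hVW ⟨f, y, hf, c, rfl⟩⟩
  refine fd_grid hu.1 0 fun i => ?_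
  set C := adjoin k (u '' ((Finset.univ.erase i : Finset (Fin (n + 1))) : Set (Fin (n + 1))))
    with hC
  have hFF : IsFF C K := isFF_adjoin hu.1 (i := i) (fun j => by simp)
  have hc2 : CharZero C := charZero_of_injective_algebraMap (algebraMap k C).injective
  have htr : Transcendental C (u i) := trans_adjoin hu.1.1 (by simp)
  have huC : ∀ l j, E l (u j) ∈ C := by
    intro l j
    rw [hu.2]
    split_ifs
    · exact C.one_mem
    · exact C.zero_mem
  have hEC : ∀ l, ∀ c ∈ C, E l c ∈ C := by
    intro l c hc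
    rw [hC] at hc ⊢
    induction hc using IntermediateField.adjoin_induction with
    | mem x hx =>
      obtain ⟨j, -, rfl⟩ := hx
      exact huC l j
    | algebraMap x =>
      rw [Derivation.map_algebraMap]
      exact IntermediateField.zero_mem _
    | add x y hx hy ihx ihy =>
      rw [map_add]
      exact IntermediateField.add_mem _ ihx ihy
    | inv x hx ih =>
      rw [Derivation.leibniz_inv, smul_eq_mul]
      exact IntermediateField.mul_mem _ (IntermediateField.neg_mem _
        (pow_mem (IntermediateField.inv_mem _ hx) 2)) ih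
    | mul x y hx hy ihx ihy =>
      rw [Derivation.leibniz, smul_eq_mul, smul_eq_mul]
      exact IntermediateField.add_mem _ (IntermediateField.mul_mem _ hx ihy)
        (IntermediateField.mul_mem _ hy ihx)
  have hbad : {P : Place C K | ∃ l, ¬ DerReg (rs P) (E l)}.Finite := by
    have h1 : {P : Place C K | ∃ l, ¬ DerReg (rs P) (E l)} =
        ⋃ l, {P : Place C K | ¬ DerReg (rs P) (E l)} := by
      ext P
      simp
    rw [h1]
    exact Set.finite_iUnion fun l => finite_bad htr (E l) (hEC l) (huC l i)
  have hdiv : ∀ P : Place C K, Divisorial (n + 1) (rs P) := by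
    intro P
    refine ⟨fun j : Fin n => u (i.succAbove j), fun F hF => ?_⟩
    have hind : AlgebraicIndependent k (fun j : Fin n => u (i.succAbove j)) :=
      hu.1.1.comp _ Fin.succAbove_right_injective
    have h0 : MvPolynomial.aeval (fun j : Fin n => u (i.succAbove j)) F ≠ 0 := fun h =>
      hF ((injective_iff_map_eq_zero _).1 hind F h)
    refine ⟨h0, rs_triv P ?_ h0⟩
    have h2 : ∀ j : Fin n, u (i.succAbove j) ∈ C := fun j =>
      subset_adjoin k _ ⟨_, by simp [Fin.succAbove_ne i j], rfl⟩
    have h3 := MvPolynomial.comp_aeval_apply (f := fun j : Fin n => (⟨_, h2 j⟩ : C)) C.val F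
    have h4 : MvPolynomial.aeval (fun j : Fin n => u (i.succAbove j)) F =
        ((MvPolynomial.aeval (fun j : Fin n => (⟨_, h2 j⟩ : C)) F : C) : K) := h3.symm
    rw [h4]
    exact SetLike.coe_mem _
  have hden : ∀ P : Place C K, ∃ g : K, g ≠ 0 ∧ ∀ l, DerReg (rs P) (g • E l) := fun P =>
    exists_den hn (rs P) (hdiv P) E
  choose g hg0 hg using hden
  let Dv : Place C K →₀ ℤ := Finsupp.onFinset hbad.toFinset
    (fun P => if P ∈ hbad.toFinset then ((e * N : ℕ) : ℤ) * |P.ord (g P)| else 0) (fun P hP => by
      by_contra h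
      exact hP (if_neg h))
  have hLL : V ⊆ (LL Dv : Submodule C K) := by
    rintro _ ⟨f, y, hf, c, rfl⟩
    rw [SetLike.mem_coe, mem_LL]
    by_cases h0 : vl E N f y c = 0
    · exact Or.inl h0
    right
    intro P
    change -(if P ∈ hbad.toFinset then ((e * N : ℕ) : ℤ) * |P.ord (g P)| else 0) ≤ _
    by_cases hP : P ∈ hbad.toFinset
    · rw [if_pos hP]
      have h1 := hf.val (hdiv P) (hg P) c
      have h2 : 0 ≤ P.ord (g P ^ (e * N) * vl E N f y c) :=
        (Place.reg_iff (rs P) (mul_ne_zero (pow_ne_zero _ (hg0 P)) h0)).1 h1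
      rw [P.ord_mul (pow_ne_zero _ (hg0 P)) h0, P.ord_pow] at h2
      have h3 : ((e * N : ℕ) : ℤ) * P.ord (g P) ≤ ((e * N : ℕ) : ℤ) * |P.ord (g P)| :=
        mul_le_mul_of_nonneg_left (le_abs_self _) (Int.natCast_nonneg _)
      omega
    · rw [if_neg hP, neg_zero]
      rw [Set.Finite.mem_toFinset, Set.mem_setOf_eq] at hP
      push Not at hP
      have h1 := hf.val (hdiv P) (g := 1) (fun l => by rw [one_smul]; exact hP l) c
      rw [one_pow, one_mul] at h1
      exact (Place.reg_iff (rs P) h0).1 h1
  have hfg : (LL Dv : Submodule C K).FG := Module.Finite.iff_fg.1 inferInstance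
  obtain ⟨T, hT⟩ := hfg
  refine ⟨T, T.finite_toSet, ?_⟩
  rw [hT]
  exact hLL

end Pool.Agent.X332.GT
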