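import Mathlib
import Pool.Agent.X332.GT.Bd

/-!
Regular tensors under extensions of function fields, and the polynomials of their values.
-/

set_option autoImplicit false

namespace Pool.Agent.X332.GT

open FF IntermediateField Module IsDedekindDomain Pool.Agent.W602.GT Pool.Agent.TH143.GT
open Pool.Agent.W603.LV hiding Ge

variable {k K : Type} [Field k] [Field K] [Algebra k K]

theorem reg_of_log {P : Place k K} {D : Derivation k K K} (h : DerLog P D) : DerReg P D := by
  intro f hf
  by_cases h0 : f = 0
  · rw [h0, map_zero]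
    exact P.reg_zero
  · have h1 := P.reg_mul (h f) hf
    rwa [div_mul_cancel₀ _ h0] at h1

/-- multilinear expansion -/
theorem det_pull {L : Type} [Field L] [Algebra k L] [Algebra K L] [IsScalarTower k K L] {e v : ℕ}
    {y0 : Fin v → K} {E : Fin v → Derivation k K K} [CharZero k] (h : Dual y0 E)
    (y : Fin e → K) (θ : MultilinearMap K (fun _ : Fin e => Derivation k K K) K)
    (hθ : ∀ D : Fin e → Derivation k K K, θ D = (Matrix.of fun i j => D i (y j)).det)
    (D : Fin e → Derivation k L L) :
    pull θ y0 E D = (Matrix.of fun i j => D i (algebraMap K L (y j))).det := by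
  classical
  have h1 : (Matrix.of fun i j => D i (algebraMap K L (y j))) =
      Matrix.of fun i => ∑ l, D i (algebraMap K L (y0 l)) •
        fun j => algebraMap K L (E l (y j)) := by
    ext i j
    rw [Matrix.of_apply, Matrix.of_apply, Finset.sum_apply, h.chain]
    rfl
  rw [h1]
  have h2 := MultilinearMap.map_sum
    ((Matrix.detRowAlternating (R := L) (n := Fin e)).toMultilinearMap)
    (α := fun _ : Fin e => Fin v)
    (fun i l => D i (algebraMap K L (y0 l)) • fun j => algebraMap K L (E l (y j)))
  refine Eq.trans ?_ h2.symm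
  unfold pull
  refine Finset.sum_congr rfl fun J _ => ?_
  rw [MultilinearMap.map_smul_univ, smul_eq_mul, hθ]
  congr 1
  exact RingHom.map_det (algebraMap K L) _

/-- **Extension of regular tensors.** -/
theorem PReg.ext [CharZero k] {L : Type} [Field L] [Algebra k L] [Algebra.EssFiniteType k K]
    {e v w N : ℕ} (hN : 0 < N) (hv : Algebra.trdeg k K = v) (hw : Algebra.trdeg k L = w)
    (ι : K →ₐ[k] L) {f : K} {y : Fin e → K}
    (h : PReg k v N f y) : PReg k w N (ι f) (fun i => ι (y i)) := by
  classical
  let _ : Algebra K L := ι.toRingHom.toAlgebra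
  have ht : IsScalarTower k K L := IsScalarTower.of_algebraMap_eq fun c => (ι.commutes c).symm
  intro P hP D hD
  obtain ⟨y0, hy0⟩ : ∃ y0 : Fin v → K, IsTranscendenceBasis k y0 := by
    obtain ⟨B, hB⟩ := exists_isTranscendenceBasis k K
    have hcard := hB.cardinalMk_eq_trdeg
    rw [hv] at hcard
    have hfin : Finite B := by
      rw [← Cardinal.lt_aleph0_iff_finite, hcard]
      exact Cardinal.natCast_lt_aleph0
    obtain ⟨m', ⟨e⟩⟩ := Finite.exists_equiv_fin B
    obtain rfl : m' = v := by
      rw [Cardinal.mk_congr e, Cardinal.mk_fin] at hcard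
      exact_mod_cast hcard
    exact ⟨fun i => (e.symm i : K), hB.comp_equiv e.symm⟩
  choose E hE using fun i => exists_der y0 hy0 (fun j => if i = j then (1 : K) else 0)
  have hDu : Dual y0 E := ⟨hy0, hE⟩
  let ℓ : Derivation k K K →ₗ[K] (Fin e → K) :=
    { toFun := fun D j => D (y j)
      map_add' := fun D D' => rfl
      map_smul' := fun c D => rfl }
  let θ : AlternatingMap K (Derivation k K K) K (Fin e) :=
    (Matrix.detRowAlternating : AlternatingMap K (Fin e → K) K (Fin e)).compLinearMap ℓ
  have hθ : ∀ D : Fin e → Derivation k K K, θ D = (Matrix.of fun i j => D i (y j)).det :=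
    fun D => rfl
  have h1 := (local_reg (k := k) (K := K) (L := L) hv hw θ.toMultilinearMap hN f
    (Bd := fun _ => False) (fun v hv D hD => h v hv D fun i => reg_of_log (hD i))
    (fun v hv _ D hD => h v hv D hD) hDu P hP D).2 hD (fun _ _ _ => id)
  rw [det_pull hDu y θ.toMultilinearMap hθ] at h1
  exact h1

/-- the polynomial of the values of a tensor -/
noncomputable def tp {w : ℕ} (E : Fin w → Derivation k K K) (N : ℕ) {e : ℕ} (f : K)
    (y : Fin e → K) : MvPolynomial (Fin e × Fin w) K :=
  MvPolynomial.C f *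
    (Matrix.of fun i j => ∑ l, MvPolynomial.X (i, l) * MvPolynomial.C (E l (y j))).det ^ N

theorem tp_eval {w : ℕ} (E : Fin w → Derivation k K K) (N : ℕ) {e : ℕ} (f : K)
    (y : Fin e → K) {A : Type} [CommRing A] (j : K →+* A) (x : Fin e × Fin w → A) :
    MvPolynomial.eval₂ j x (tp E N f y) =
      j f * (Matrix.of fun i j' => ∑ l, x (i, l) * j (E l (y j'))).det ^ N := by
  unfold tp
  rw [MvPolynomial.eval₂_mul, MvPolynomial.eval₂_C, MvPolynomial.eval₂_pow]
  congr 2
  rw [← MvPolynomial.coe_eval₂Hom, RingHom.map_det]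
  congr 1
  ext i j'
  rw [RingHom.mapMatrix_apply, Matrix.map_apply, Matrix.of_apply, Matrix.of_apply, map_sum]
  refine Finset.sum_congr rfl fun l _ => ?_
  rw [map_mul, MvPolynomial.coe_eval₂Hom, MvPolynomial.eval₂_X, MvPolynomial.eval₂_C]

theorem tp_homog {w : ℕ} (E : Fin w → Derivation k K K) (N : ℕ) {e : ℕ} (f : K)
    (y : Fin e → K) : (tp E N f y).IsHomogeneous (e * N) := by
  unfold tp
  have h1 : (Matrix.of fun i j => ∑ l, MvPolynomial.X (R := K) (i, l) *
      MvPolynomial.C (E l (y j)) : Matrix (Fin e) (Fin e) _).det.IsHomogeneous e := by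
    rw [Matrix.det_apply]
    refine MvPolynomial.IsHomogeneous.sum _ _ _ fun σ _ => ?_
    have h2 : (∏ i : Fin e, (Matrix.of fun i j => ∑ l, MvPolynomial.X (R := K) (i, l) *
      MvPolynomial.C (E l (y j)) : Matrix (Fin e) (Fin e) _) (σ i) i).IsHomogeneous e := by
      have h3 := MvPolynomial.IsHomogeneous.prod (Finset.univ : Finset (Fin e))
        (fun i => (Matrix.of fun i j => ∑ l, MvPolynomial.X (R := K) (i, l) *
          MvPolynomial.C (E l (y j)) : Matrix (Fin e) (Fin e) _) (σ i) i) (fun _ => 1)
        (fun i _ => by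
          rw [Matrix.of_apply]
          refine MvPolynomial.IsHomogeneous.sum _ _ _ fun l _ => ?_
          have h4 := (MvPolynomial.isHomogeneous_X K ((σ i, l) : Fin e × Fin w)).mul
            (MvPolynomial.isHomogeneous_C (Fin e × Fin w) (E l (y i)))
          rwa [add_zero] at h4)
      rwa [Finset.sum_const, Finset.card_univ, Fintype.card_fin, smul_eq_mul, mul_one] at h3
    rcases Int.units_eq_one_or (Equiv.Perm.sign σ) with h | h
    · rw [h, one_smul]
      exact h2
    · rw [h, Units.neg_smul, one_smul]
      exact h2.neg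
  have h5 := (MvPolynomial.isHomogeneous_C (Fin e × Fin w) f).mul (h1.pow N)
  rwa [zero_add] at h5

/-- The coefficients of a polynomial with values in a subspace are in the subspace. -/
theorem coeff_mem [Infinite k] {σ : Type} (W : Submodule k K) (P : MvPolynomial σ K)
    (h : ∀ c : σ → k, MvPolynomial.eval (fun i => algebraMap k K (c i)) P ∈ W) (d : σ →₀ ℕ) :
    P.coeff d ∈ W := by
  classical
  by_contra hd
  obtain ⟨φ, hφ, hW⟩ := Submodule.exists_dual_map_eq_bot_of_notMem hd inferInstance
  apply hφ
  let Pφ : MvPolynomial σ k := ∑ d ∈ P.support, MvPolynomial.monomial d (φ (P.coeff d))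
  have h0 : Pφ = 0 := by
    apply MvPolynomial.funext
    intro c
    have h1 : φ (MvPolynomial.eval (fun i => algebraMap k K (c i)) P) = 0 := by
      have h2 : φ (MvPolynomial.eval (fun i => algebraMap k K (c i)) P) ∈ W.map φ := ⟨_, h c, rfl⟩
      rw [hW] at h2
      exact (Submodule.mem_bot k).1 h2
    rw [MvPolynomial.eval_eq, map_sum] at h1
    rw [map_sum, map_zero, ← h1]
    refine Finset.sum_congr rfl fun d _ => ?_
    rw [MvPolynomial.eval_monomial]
    have h3 : ∏ i ∈ d.support, algebraMap k K (c i) ^ d i =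
        algebraMap k K (d.prod fun i n => c i ^ n) := by
      rw [Finsupp.prod, map_prod]
      refine Finset.prod_congr rfl fun i _ => ?_
      rw [map_pow]
    rw [h3, mul_comm (P.coeff d), ← Algebra.smul_def, map_smul, smul_eq_mul, mul_comm]
  have h4 : Pφ.coeff d = φ (P.coeff d) := by
    simp only [Pφ, MvPolynomial.coeff_sum, MvPolynomial.coeff_monomial]
    by_cases hs : d ∈ P.support
    · rw [Finset.sum_ite_eq' P.support d, if_pos hs]
    · rw [Finset.sum_ite_eq' P.support d, if_neg hs, MvPolynomial.notMem_support_iff.1 hs,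
        map_zero]
  rw [← h4, h0, MvPolynomial.coeff_zero]

/-- homogeneous polynomials with coefficients in a finite-dimensional space are linearly
dependent -/
theorem exists_dep [Infinite k] {σ : Type} [Finite σ] {W : Submodule k K} (hW : W.FG) (M : ℕ)
    (P : ℕ → MvPolynomial σ K) (hP : ∀ r, (P r).IsHomogeneous M)
    (h : ∀ r (c : σ → k), MvPolynomial.eval (fun i => algebraMap k K (c i)) (P r) ∈ W) :
    ∃ (r : ℕ) (a : ℕ → k), a r ≠ 0 ∧
      ∑ i ∈ Finset.range (r + 1), MvPolynomial.C (algebraMap k K (a i)) * P i = 0 := by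
  classical
  set S : Set (σ →₀ ℕ) := {f | f.degree = M} with hS
  have hSf : Finite S := Finsupp.finite_of_degree_eq M
  have hWf : Module.Finite k W := Module.Finite.iff_fg.2 hW
  let v : ℕ → (S → W) := fun r d => ⟨(P r).coeff d, coeff_mem W (P r) (h r) d⟩
  have hnot : ¬ LinearIndependent k v := by
    intro hv
    have := hv.finite
    exact not_finite ℕ
  rw [linearIndependent_iff'] at hnot
  push Not at hnot
  obtain ⟨s, g, hg, i0, hi0, hgi⟩ := hnot
  let T := s.filter fun i => g i ≠ 0
  have hT : T.Nonempty := ⟨i0, Finset.mem_filter.2 ⟨hi0, hgi⟩⟩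
  set r := T.max' hT with hr
  have hrT : r ∈ T := T.max'_mem hT
  refine ⟨r, fun i => if i ∈ T then g i else 0, ?_, ?_⟩
  · simp only [if_pos hrT]
    exact (Finset.mem_filter.1 hrT).2
  have h1 : ∑ i ∈ Finset.range (r + 1), MvPolynomial.C (algebraMap k K (if i ∈ T then g i else 0)) *
      P i = ∑ i ∈ s, MvPolynomial.C (algebraMap k K (g i)) * P i := by
    have h2 : ∑ i ∈ Finset.range (r + 1),
        MvPolynomial.C (algebraMap k K (if i ∈ T then g i else 0)) * P i =
        ∑ i ∈ T, MvPolynomial.C (algebraMap k K (g i)) * P i := by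
      have hsub : T ⊆ Finset.range (r + 1) := fun i hi => by
        rw [Finset.mem_range]
        have := T.le_max' i hi
        omega
      rw [← Finset.sum_subset hsub]
      · refine Finset.sum_congr rfl fun i hi => ?_
        rw [if_pos hi]
      · intro i _ hi
        rw [if_neg hi, map_zero, map_zero, zero_mul]
    rw [h2]
    refine Finset.sum_subset (Finset.filter_subset _ _) fun i hi hiT => ?_
    have h3 : g i = 0 := by
      by_contra h4
      exact hiT (Finset.mem_filter.2 ⟨hi, h4⟩)
    rw [h3, map_zero, map_zero, zero_mul]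
  rw [h1]
  ext d
  rw [MvPolynomial.coeff_sum, MvPolynomial.coeff_zero]
  simp only [MvPolynomial.coeff_C_mul]
  by_cases hd : d.degree = M
  · have h2 := congrArg Subtype.val (congrFun hg (⟨d, hd⟩ : S))
    rw [Finset.sum_apply] at h2
    rw [AddSubmonoidClass.coe_finsetSum] at h2
    refine Eq.trans (Finset.sum_congr rfl fun i _ => ?_) h2
    change _ = g i • (P i).coeff d
    rw [Algebra.smul_def]
  · refine Finset.sum_eq_zero fun i _ => ?_
    have h2 : (P i).coeff d = 0 := by
      by_contra h3
      apply hd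
      have h4 := hP i h3
      rw [← h4, Finsupp.degree_eq_weight_one]
      rfl
    rw [h2, mul_zero]

end Pool.Agent.X332.GT
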