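import Mathlib
import Pool.Agent.X332.GT.Tens
import Pool.Agent.TH143.GE.Low

/-!
Frames of derivations along a sequence of points.
-/

set_option autoImplicit false

namespace Pool.Agent.X332.GT

open Filter Module Pool.Agent.W602.GT Pool.Agent.TH143.GT Pool.Agent.TH143.HE
  Pool.Agent.TH143.TW Pool.Agent.TH143.DE

/-- Countably many nonzero polynomials are all nonzero at some point. -/
theorem avoid_fin (s : ℕ) (F : ℕ → MvPolynomial (Fin s) ℂ) (hF : ∀ n, F n ≠ 0) :
    ∃ u : Fin s → ℂ, ∀ n, MvPolynomial.eval u (F n) ≠ 0 := by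
  induction s with
  | zero =>
    refine ⟨Fin.elim0, fun n h => hF n ?_⟩
    rw [MvPolynomial.eq_C_of_isEmpty (F n)] at h ⊢
    rw [MvPolynomial.eval_C] at h
    rw [h, map_zero]
  | succ s ih =>
    have h1 : ∀ n, ∃ k, (MvPolynomial.finSuccEquiv ℂ s (F n)).coeff k ≠ 0 := by
      intro n
      by_contra h
      push Not at h
      apply hF n
      apply (MvPolynomial.finSuccEquiv ℂ s).injective
      rw [map_zero]
      ext k : 1
      rw [h k, Polynomial.coeff_zero]
    choose k hk using h1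
    obtain ⟨u, hu⟩ := ih (fun n => (MvPolynomial.finSuccEquiv ℂ s (F n)).coeff (k n)) hk
    let p : ℕ → Polynomial ℂ := fun n =>
      Polynomial.map (MvPolynomial.eval u) (MvPolynomial.finSuccEquiv ℂ s (F n))
    have hp : ∀ n, p n ≠ 0 := by
      intro n h
      have := congrArg (fun q => Polynomial.coeff q (k n)) h
      simp only [p, Polynomial.coeff_map, Polynomial.coeff_zero] at this
      exact hu n this
    have hc : (⋃ n, {z : ℂ | (p n).IsRoot z}).Countable :=
      Set.countable_iUnion fun n => (Polynomial.finite_setOfPred_isRoot (hp n)).countable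
    have hne : (⋃ n, {z : ℂ | (p n).IsRoot z}) ≠ Set.univ := by
      intro h
      rw [h] at hc
      exact not_countable_complex hc
    obtain ⟨z, hz⟩ := (Set.ne_univ_iff_exists_notMem _).1 hne
    refine ⟨Fin.cons z u, fun n h => hz ?_⟩
    rw [Set.mem_iUnion]
    refine ⟨n, ?_⟩
    rw [MvPolynomial.eval_eq_eval_mv_eval'] at h
    exact h

theorem avoid {σ : Type} [Finite σ] (F : ℕ → MvPolynomial σ ℂ) (hF : ∀ n, F n ≠ 0) :
    ∃ u : σ → ℂ, ∀ n, MvPolynomial.eval u (F n) ≠ 0 := by
  obtain ⟨s, ⟨e⟩⟩ := Finite.exists_equiv_fin σ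
  obtain ⟨u, hu⟩ := avoid_fin s (fun n => MvPolynomial.rename e (F n)) fun n h =>
    hF n ((map_eq_zero_iff _ (MvPolynomial.rename_injective e e.injective)).1 h)
  exact ⟨u ∘ e, fun n h => hu n (by rw [MvPolynomial.eval_rename]; exact h)⟩

variable {k K : Type} [Field k] [Field K] [Algebra k K]

/-- chain rule -/
theorem chain' [CharZero k] {L : Type} [Field L] [Algebra k L] {w : ℕ} {y : Fin w → K}
    {E : Fin w → Derivation k K K} (h : Dual y E) (ι : K →ₐ[k] L) (D : Derivation k L L) (f : K) :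
    D (ι f) = ∑ j, D (ι (y j)) * ι (E j f) := by
  let _ : Algebra K L := ι.toRingHom.toAlgebra
  have ht : IsScalarTower k K L := IsScalarTower.of_algebraMap_eq fun c => (ι.commutes c).symm
  exact h.chain D f

/-- the dual derivations of an algebraically independent family -/
theorem exists_dual' [CharZero k] {e : ℕ} (y : Fin e → K) (hy : AlgebraicIndependent k y) :
    ∃ D : Fin e → Derivation k K K, ∀ i j, D i (y j) = if i = j then 1 else 0 := by
  classical
  have hinj : Function.Injective y := hy.injective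
  obtain ⟨B, hyB, hB⟩ := exists_isTranscendenceBasis_superset hy.coe_range
  choose D hD using fun i : Fin e => exists_der (L := k) (fun b : B => (b : K)) hB
    (fun b : B => if y i = b then (1 : K) else 0)
  refine ⟨D, fun i j => ?_⟩
  have h1 := hD i ⟨y j, hyB ⟨j, rfl⟩⟩
  change D i (y j) = if y i = y j then 1 else 0 at h1
  rw [h1]
  by_cases h : i = j
  · rw [if_pos h, if_pos (by rw [h])]
  · rw [if_neg h, if_neg fun h2 => h (hinj h2)]

section

variable {K : Type} [Field K] [Algebra ℂ K] {j : K →ₐ[ℂ] GG} {s : K →ₐ[ℂ] K} {w e : ℕ}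
  {u : Fin w → K} {E : Fin w → Derivation ℂ K K}

theorem map_gg {n n' : ℕ} {rep : K → ℕ → ℂ} (hrep : ∀ z, gg (rep z) = j z)
    {n'' : ℕ} (A : Matrix (Fin n) (Fin n') K) (B : Matrix (Fin n') (Fin n'') K)
    (C : Matrix (Fin n) (Fin n'') K) (h : A * B = C) :
    ∀ᶠ m in atTop, (A.map fun z => rep z m) * (B.map fun z => rep z m) =
      C.map fun z => rep z m := by
  have h1 : ∀ᶠ m in atTop, ∀ a b, ∑ i, rep (A a i) m * rep (B i b) m = rep (C a b) m := by
    rw [eventually_all]
    intro a
    rw [eventually_all]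
    intro b
    have h2 : gg (fun m => ∑ i, rep (A a i) m * rep (B i b) m) = gg (rep (C a b)) := by
      have h3 : (fun m => ∑ i, rep (A a i) m * rep (B i b) m) =
          ∑ i, rep (A a i) * rep (B i b) := by
        funext m
        rw [Finset.sum_apply]
        rfl
      rw [h3, map_sum, hrep, ← h, Matrix.mul_apply, map_sum]
      refine Finset.sum_congr rfl fun i _ => ?_
      rw [map_mul, map_mul, hrep, hrep]
    exact gg_eq.1 h2
  filter_upwards [h1] with m hm
  ext a b
  rw [Matrix.mul_apply]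
  exact hm a b

theorem one_gg {n : ℕ} {rep : K → ℕ → ℂ} (hrep : ∀ z, gg (rep z) = j z) :
    ∀ᶠ m in atTop, ((1 : Matrix (Fin n) (Fin n) K).map fun z => rep z m) = 1 := by
  have h0 : ∀ᶠ m in atTop, rep 0 m = 0 := by
    have h1 : gg (rep 0) = gg 0 := by rw [hrep, map_zero, map_zero]
    exact gg_eq.1 h1
  have h1 : ∀ᶠ m in atTop, rep 1 m = 1 := by
    have h1 : gg (rep 1) = gg 1 := by rw [hrep, map_one, map_one]
    exact gg_eq.1 h1
  filter_upwards [h0, h1] with m h2 h3
  ext a b
  rw [Matrix.map_apply, Matrix.one_apply, Matrix.one_apply]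
  split_ifs
  · exact h3
  · exact h2

/-- **A frame of derivations along the sequence**, in general position with respect to given
functions. -/
theorem exists_frame (hn : Algebra.trdeg ℂ K = w) (hu : Dual u E) (y : Fin e → K)
    (hy : AlgebraicIndependent ℂ y) :
    ∃ γ : Fin e → Fin w → GG, (∀ a l, shG (γ a l) = ∑ l', γ a l' * j (E l' (s (u l)))) ∧
      IsUnit (Matrix.of fun a b => ∑ l, γ a l * j (E l (y b))).det := by
  classical
  -- the Jacobian matrix
  have hind : AlgebraicIndependent ℂ (fun i => s (u i)) :=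
    AlgebraicIndependent.map' hu.1.1 (f := s) s.toRingHom.injective
  have hsb : IsTranscendenceBasis ℂ (fun i => s (u i)) := by
    refine hind.isTranscendenceBasis_of_lift_trdeg_le_of_finite ?_
    rw [hn]
    simp
  choose E' hE' using fun i => exists_der (fun i => s (u i)) hsb
    (fun j => if i = j then (1 : K) else 0)
  have hu' : Dual (fun i => s (u i)) E' := ⟨hsb, hE'⟩
  let M : Matrix (Fin w) (Fin w) K := Matrix.of fun l' l => E l' (s (u l))
  let M' : Matrix (Fin w) (Fin w) K := Matrix.of fun l' l => E' l' (u l)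
  have hMM : M * M' = 1 := by
    ext a b
    rw [Matrix.mul_apply, Matrix.one_apply, ← hu.2 a b]
    have h1 := congrArg (fun D : Derivation ℂ K K => D (u b)) (hu'.expand (E a))
    simp only [der_sum, smul_eq_mul] at h1
    exact h1.symm
  -- the left inverse
  obtain ⟨D, hD⟩ := exists_dual' y hy
  let V : Matrix (Fin w) (Fin e) K := Matrix.of fun l b => E l (y b)
  let V' : Matrix (Fin e) (Fin w) K := Matrix.of fun a l => D a (u l)
  have hVV : V' * V = 1 := by
    ext a b
    rw [Matrix.mul_apply, Matrix.one_apply, ← hD a b]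
    have h1 := congrArg (fun D : Derivation ℂ K K => D (y b)) (hu.expand (D a))
    simp only [der_sum, smul_eq_mul] at h1
    exact h1.symm
  choose rep hrep using fun z : K => gg_surj (j z)
  obtain ⟨m0, hm0⟩ := eventually_atTop.1
    (((map_gg hrep M M' 1 hMM).and (one_gg (n := w) hrep)).and
      ((map_gg hrep V' V 1 hVV).and (one_gg (n := e) hrep)))
  let Mm : ℕ → Matrix (Fin w) (Fin w) ℂ := fun m => M.map fun z => rep z m
  let M'm : ℕ → Matrix (Fin w) (Fin w) ℂ := fun m => M'.map fun z => rep z m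
  let Vm : ℕ → Matrix (Fin w) (Fin e) ℂ := fun m => V.map fun z => rep z m
  let V'm : ℕ → Matrix (Fin e) (Fin w) ℂ := fun m => V'.map fun z => rep z m
  have hM1 : ∀ m, m0 ≤ m → Mm m * M'm m = 1 := fun m hm =>
    (hm0 m hm).1.1.trans (hm0 m hm).1.2
  have hV1 : ∀ m, m0 ≤ m → V'm m * Vm m = 1 := fun m hm =>
    (hm0 m hm).2.1.trans (hm0 m hm).2.2
  let A : ℕ → Matrix (Fin w) (Fin w) ℂ := fun k =>
    Nat.rec 1 (fun k Ak => Ak * Mm (m0 + k)) k
  have hA : ∀ k, A (k + 1) = A k * Mm (m0 + k) := fun k => rfl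
  have hAi : ∀ k, ∃ B : Matrix (Fin w) (Fin w) ℂ, B * A k = 1 := by
    intro k
    induction k with
    | zero => exact ⟨1, Matrix.one_mul _⟩
    | succ k ih =>
      obtain ⟨B, hB⟩ := ih
      refine ⟨M'm (m0 + k) * B, ?_⟩
      rw [hA, Matrix.mul_assoc, ← Matrix.mul_assoc B, hB, Matrix.one_mul]
      exact mul_eq_one_comm.1 (hM1 _ (by omega))
  choose B hB using hAi
  -- general position
  let P : ℕ → MvPolynomial (Fin e × Fin w) ℂ := fun k =>
    (Matrix.of fun a b => ∑ l, MvPolynomial.X (a, l) *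
      MvPolynomial.C ((A k * Vm (m0 + k)) l b)).det
  have hPe : ∀ k (c : Matrix (Fin e) (Fin w) ℂ),
      MvPolynomial.eval (fun p : Fin e × Fin w => c p.1 p.2) (P k) =
        (c * (A k * Vm (m0 + k))).det := by
    intro k c
    change (MvPolynomial.eval (fun p : Fin e × Fin w => c p.1 p.2)) (Matrix.det _) = _
    rw [RingHom.map_det]
    congr 1
    ext a b
    rw [RingHom.mapMatrix_apply, Matrix.map_apply, Matrix.of_apply, map_sum, Matrix.mul_apply]
    refine Finset.sum_congr rfl fun l _ => ?_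
    rw [map_mul, MvPolynomial.eval_X, MvPolynomial.eval_C]
  have hP0 : ∀ k, P k ≠ 0 := by
    intro k h0
    have h1 := hPe k (V'm (m0 + k) * B k)
    rw [h0, map_zero, Matrix.mul_assoc, ← Matrix.mul_assoc (B k), hB, Matrix.one_mul,
      hV1 _ (by omega), Matrix.det_one] at h1
    exact zero_ne_one h1
  obtain ⟨c0', hc0⟩ := avoid P hP0
  let c0 : Matrix (Fin e) (Fin w) ℂ := Matrix.of fun a l => c0' (a, l)
  have hc : ∀ k, (c0 * (A k * Vm (m0 + k))).det ≠ 0 := by
    intro k
    rw [← hPe k c0]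
    exact hc0 k
  refine ⟨fun a l => gg fun m => (c0 * A (m - m0)) a l, fun a l => ?_, ?_⟩
  · rw [shG_gg]
    have h1 : ∀ l', j (E l' (s (u l))) = gg (rep (E l' (s (u l)))) := fun l' => (hrep _).symm
    simp only [h1, ← map_mul]
    rw [← map_sum, gg_eq]
    filter_upwards [eventually_ge_atTop m0] with m hm
    have h2 : m + 1 - m0 = (m - m0) + 1 := by omega
    have h3 : m0 + (m - m0) = m := by omega
    rw [h2, hA, h3, ← Matrix.mul_assoc, Matrix.mul_apply, Finset.sum_apply]
    rfl
  · have h1 : (Matrix.of fun a b => ∑ l, (gg fun m => (c0 * A (m - m0)) a l) *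
        j (E l (y b))).det = gg fun m => (c0 * A (m - m0) * Vm m).det := by
      have h2 : (Matrix.of fun a b => ∑ l, (gg fun m => (c0 * A (m - m0)) a l) *
          j (E l (y b))) = (gg : (ℕ → ℂ) →+* GG).mapMatrix
            (Matrix.of fun a b => fun m => (c0 * A (m - m0) * Vm m) a b) := by
        ext a b
        rw [RingHom.mapMatrix_apply, Matrix.map_apply, Matrix.of_apply, Matrix.of_apply]
        have h3 : ∀ l, j (E l (y b)) = gg (rep (E l (y b))) := fun l => (hrep _).symm
        simp only [h3, ← map_mul]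
        rw [← map_sum]
        change gg _ = gg _
        congr 1
        funext m
        rw [Matrix.mul_apply, Finset.sum_apply]
        rfl
      rw [h2, ← RingHom.map_det]
      change gg _ = gg _
      congr 1
      funext m
      have h4 := RingHom.map_det (Pi.evalRingHom (fun _ : ℕ => ℂ) m)
        (Matrix.of fun a b => fun m => (c0 * A (m - m0) * Vm m) a b)
      exact h4
    rw [h1]
    apply ne_unit
    filter_upwards [eventually_ge_atTop m0] with m hm
    have h3 : m0 + (m - m0) = m := by omega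
    have h4 := hc (m - m0)
    rw [h3, ← Matrix.mul_assoc] at h4
    exact h4

/-- the value of a tensor on the frame -/
noncomputable def tv (j : K →ₐ[ℂ] GG) (E : Fin w → Derivation ℂ K K) (γ : Fin e → Fin w → GG)
    (N : ℕ) (f : K) (y : Fin e → K) : GG :=
  j f * (Matrix.of fun a b => ∑ l, γ a l * j (E l (y b))).det ^ N

theorem sh_tv (hs : ∀ z, j (s z) = shG (j z)) (hu : Dual u E) {γ : Fin e → Fin w → GG}
    (hγ : ∀ a l, shG (γ a l) = ∑ l', γ a l' * j (E l' (s (u l)))) (N : ℕ) (f : K)
    (y : Fin e → K) : shG (tv j E γ N f y) = tv j E γ N (s f) fun b => s (y b) := by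
  unfold tv
  rw [map_mul, map_pow, ← hs, RingHom.map_det]
  congr 3
  ext a b
  rw [RingHom.mapMatrix_apply, Matrix.map_apply, Matrix.of_apply, Matrix.of_apply, map_sum]
  simp only [map_mul, hγ, ← hs]
  have h1 : ∀ l, E l (s (y b)) = ∑ i, E l (s (u i)) * s (E i (y b)) := fun l =>
    chain' hu s (E l) (y b)
  simp only [h1, map_sum, map_mul, Finset.sum_mul, Finset.mul_sum]
  rw [Finset.sum_comm]
  refine Finset.sum_congr rfl fun l _ => Finset.sum_congr rfl fun l' _ => ?_
  ring

theorem sh_tv_pow (hs : ∀ z, j (s z) = shG (j z)) (hu : Dual u E) {γ : Fin e → Fin w → GG}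
    (hγ : ∀ a l, shG (γ a l) = ∑ l', γ a l' * j (E l' (s (u l)))) (N : ℕ) (f : K)
    (y : Fin e → K) (i : ℕ) :
    (shG ^ i) (tv j E γ N f y) = tv j E γ N ((s ^ i) f) fun b => (s ^ i) (y b) := by
  induction i with
  | zero => rfl
  | succ i ih =>
    rw [pow_succ', RingHom.mul_def, RingHom.comp_apply, ih, sh_tv hs hu hγ, pow_succ' s]
    rfl

/-- **The values of regular tensors on the frame satisfy linear recurrences with constant
coefficients.** -/
theorem linRec_tv [Algebra.EssFiniteType ℂ K] {n : ℕ} {u : Fin (n + 1) → K}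
    {E : Fin (n + 1) → Derivation ℂ K K} (hn : Algebra.trdeg ℂ K = (n + 1 : ℕ))
    (hs : ∀ z, j (s z) = shG (j z)) (hu : Dual u E) {γ : Fin e → Fin (n + 1) → GG}
    (hγ : ∀ a l, shG (γ a l) = ∑ l', γ a l' * j (E l' (s (u l)))) {N : ℕ} {f : K}
    {y : Fin e → K} (hreg : ∀ i : ℕ, PReg ℂ (n + 1) N ((s ^ i) f) fun b => (s ^ i) (y b))
    {x : ℕ → ℂ} (hx : gg x = tv j E γ N f y) : LinRec EC x := by
  classical
  obtain ⟨W, hW, hmem⟩ := exists_fg hn hu e N
  obtain ⟨r, a, har, hrel⟩ := exists_dep hW (e * N)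
    (fun i => tp E N ((s ^ i) f) fun b => (s ^ i) (y b)) (fun i => tp_homog _ _ _ _)
    (fun i c => by
      have h1 := tp_eval E N ((s ^ i) f) (fun b => (s ^ i) (y b)) (RingHom.id K)
        (fun p => algebraMap ℂ K (c p))
      have h2 := hmem _ _ (hreg i) (fun a l => c (a, l))
      change MvPolynomial.eval₂ (RingHom.id K) _ _ ∈ W
      rw [h1]
      exact h2)
  refine ⟨r, fun k _ => a k, fun k => ⟨a k, Eventually.of_forall fun _ => rfl⟩,
    ⟨r, le_rfl, fun h => ?_⟩, ?_⟩
  · obtain ⟨m, hm⟩ := h.exists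
    exact har hm
  have h1 := congrArg (MvPolynomial.eval₂ (j : K →+* GG) (fun p => γ p.1 p.2)) hrel
  rw [MvPolynomial.eval₂_zero, MvPolynomial.eval₂_sum] at h1
  have h2 : gg (fun m => ∑ k ∈ Finset.range (r + 1), a k * x (m + k)) = gg 0 := by
    rw [map_zero, ← h1]
    have h3 : (fun m => ∑ k ∈ Finset.range (r + 1), a k * x (m + k)) =
        ∑ k ∈ Finset.range (r + 1), algebraMap ℂ (ℕ → ℂ) (a k) * fun m => x (m + k) := by
      funext m
      rw [Finset.sum_apply]
      rfl
    rw [h3, map_sum]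
    refine Finset.sum_congr rfl fun i _ => ?_
    rw [MvPolynomial.eval₂_mul, MvPolynomial.eval₂_C, tp_eval, map_mul, gg.commutes]
    have h4 : (j : K →+* GG) (algebraMap ℂ K (a i)) = algebraMap ℂ GG (a i) := j.commutes _
    rw [h4]
    congr 1
    have h5 := sh_tv_pow hs hu hγ N f y i
    rw [← hx, shG_pow] at h5
    rw [h5]
    rfl
  exact gg_eq.1 h2

end

end Pool.Agent.X332.GT
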