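import Mathlib
import Pool.Agent.X332.GT.Bd
import Pool.Agent.W602.GT.SpDefs

/-!
Regular tensors whose ratios generate the field.
-/

set_option autoImplicit false

namespace Pool.Agent.X332.GT

open FF IntermediateField Module Pool.Agent.W602.GT Pool.Agent.TH143.GT

variable {k F : Type} [Field k] [Field F] [Algebra k F]

theorem reg_pow {P : Place k F} {x : F} (h : P.Reg x) (n : ℕ) : P.Reg (x ^ n) := by
  change _ ∈ P.O
  exact pow_mem h n

theorem reg_aeval {P : Place k F} {e : ℕ} {g : Fin (e + 1) → F} (hg : ∀ i, P.Reg (g i))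
    (hg0 : g 0 ≠ 0) (A : MvPolynomial (Fin e) k) {M : ℕ} (hM : A.totalDegree ≤ M) :
    P.Reg (g 0 ^ M * MvPolynomial.aeval (fun i : Fin e => g i.succ / g 0) A) := by
  classical
  rw [MvPolynomial.aeval_def, MvPolynomial.eval₂_eq', Finset.mul_sum]
  change _ ∈ P.O
  refine sum_mem fun α hα => ?_
  have h1 : ∑ i, α i ≤ M := by
    have h2 := (MvPolynomial.le_totalDegree hα).trans hM
    rwa [Finsupp.sum_fintype _ _ (fun _ => rfl)] at h2
  have h3 : g 0 ^ M * (algebraMap k F (A.coeff α) * ∏ i, (g i.succ / g 0) ^ α i) =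
      algebraMap k F (A.coeff α) * (g 0 ^ (M - ∑ i, α i) * ∏ i : Fin e, g i.succ ^ α i) := by
    have h4 : g 0 ^ M = g 0 ^ (M - ∑ i, α i) * g 0 ^ (∑ i, α i) := by
      rw [← pow_add]
      congr 1
      omega
    have h5 : ∏ i : Fin e, g i.succ ^ α i =
        g 0 ^ (∑ i, α i) * ∏ i, (g i.succ / g 0) ^ α i := by
      rw [← Finset.prod_pow_eq_pow_sum, ← Finset.prod_mul_distrib]
      refine Finset.prod_congr rfl fun i _ => ?_
      rw [← mul_pow, mul_div_cancel₀ _ hg0]
    rw [h4, h5]
    ring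
  rw [h3]
  exact mul_mem (P.reg_const _) (mul_mem (pow_mem (hg 0) _)
    (prod_mem fun i _ => pow_mem (hg i.succ) _))

/-- an element which is integral over the ratios becomes regular -/
theorem reg_int {e : ℕ} {t : Fin e → F} {z : F}
    (hz : IsIntegral (Algebra.adjoin k (Set.range t)) z) :
    ∃ M : ℕ, 0 < M ∧ ∀ (P : Place k F) (g : Fin (e + 1) → F), (∀ i, P.Reg (g i)) → g 0 ≠ 0 →
      (∀ i : Fin e, t i = g i.succ / g 0) → P.Reg (g 0 ^ M * z) := by
  classical
  obtain ⟨p, hp, hpz⟩ := hz
  have h1 : ∀ a : Algebra.adjoin k (Set.range t), ∃ A : MvPolynomial (Fin e) k,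
      MvPolynomial.aeval t A = (a : F) := by
    intro a
    have h2 : (a : F) ∈ (MvPolynomial.aeval t : MvPolynomial (Fin e) k →ₐ[k] F).range := by
      rw [← Algebra.adjoin_range_eq_range_aeval]
      exact a.2
    exact h2
  choose A hA using h1
  set r := p.natDegree with hr
  set M := 1 + ∑ i ∈ Finset.range (r + 1), (A (p.coeff i)).totalDegree with hM
  refine ⟨M, by omega, fun P g hg hg0 ht => ?_⟩
  have ht' : t = fun i => g i.succ / g 0 := funext ht
  set G := g 0 ^ M with hG
  have hGR : P.Reg G := reg_pow (hg 0) M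
  have hc : ∀ i, i < r → P.Reg (G ^ (r - i) * (p.coeff i : F)) := by
    intro i hi
    have h2 : G ^ (r - i) * (p.coeff i : F) = G ^ (r - i - 1) * (G * (p.coeff i : F)) := by
      rw [← mul_assoc, ← pow_succ]
      congr 2
      omega
    rw [h2]
    refine P.reg_mul (reg_pow hGR _) ?_
    rw [← hA (p.coeff i)]
    have h3 := Finset.single_le_sum (f := fun i => (A (p.coeff i)).totalDegree)
      (fun _ _ => Nat.zero_le _) (Finset.mem_range.2 (by omega : i < r + 1))
    have h4 := reg_aeval hg hg0 (A (p.coeff i)) (M := M) (by omega)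
    have h5 : (MvPolynomial.aeval t : MvPolynomial (Fin e) k →ₐ[k] F) =
        MvPolynomial.aeval (fun i : Fin e => g i.succ / g 0) := congrArg _ ht'
    rw [h5]
    exact h4
  have hr0 : 0 < r := by
    rcases Nat.eq_zero_or_pos r with h | h
    · exfalso
      have h2 := Polynomial.eq_C_of_natDegree_eq_zero (hr ▸ h)
      have h3 : p.coeff 0 = 1 := by
        have := hp.coeff_natDegree
        rwa [← hr, h] at this
      rw [h2, h3, Polynomial.eval₂_C, map_one] at hpz
      exact one_ne_zero hpz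
    · exact h
  have heq : (G * z) ^ r = -∑ i ∈ Finset.range r, G ^ (r - i) * (p.coeff i : F) * (G * z) ^ i := by
    rw [Polynomial.eval₂_eq_sum_range, Finset.sum_range_succ, ← hr, hp.coeff_natDegree, map_one,
      one_mul] at hpz
    have h2 : z ^ r = -∑ i ∈ Finset.range r, (p.coeff i : F) * z ^ i := by
      rw [eq_neg_iff_add_eq_zero, add_comm]
      exact hpz
    rw [mul_pow, h2, mul_neg, Finset.mul_sum]
    congr 1
    refine Finset.sum_congr rfl fun i hi => ?_
    have h3 : G ^ r = G ^ (r - i) * G ^ i := by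
      rw [← pow_add]
      congr 1
      have := Finset.mem_range.1 hi
      omega
    rw [h3, mul_pow]
    ring
  by_contra hcon
  have hh0 : G * z ≠ 0 := by
    intro h
    rw [h] at hcon
    exact hcon P.reg_zero
  have hinv : P.Reg (G * z)⁻¹ := by
    right
    rw [P.ord_inv]
    have h2 : ¬ 0 ≤ P.ord (G * z) := fun h => hcon (Or.inr h)
    omega
  apply hcon
  have h2 : G * z = -∑ i ∈ Finset.range r, G ^ (r - i) * (p.coeff i : F) *
      ((G * z)⁻¹) ^ (r - 1 - i) := by
    have h3 : G * z = (G * z) ^ r * ((G * z)⁻¹) ^ (r - 1) := by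
      have h4 : (G * z) ^ r = (G * z) * (G * z) ^ (r - 1) := by
        rw [← pow_succ']
        congr 1
        omega
      rw [h4, mul_assoc, ← mul_pow, mul_inv_cancel₀ hh0, one_pow, mul_one]
    have h5 : (G * z) ^ r * ((G * z)⁻¹) ^ (r - 1) =
        -∑ i ∈ Finset.range r, G ^ (r - i) * (p.coeff i : F) * ((G * z)⁻¹) ^ (r - 1 - i) := by
      rw [heq, neg_mul, Finset.sum_mul]
      congr 1
      refine Finset.sum_congr rfl fun i hi => ?_
      have h6 : ((G * z)⁻¹) ^ (r - 1) = ((G * z)⁻¹) ^ i * ((G * z)⁻¹) ^ (r - 1 - i) := by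
        rw [← pow_add]
        congr 1
        have := Finset.mem_range.1 hi
        omega
      rw [h6, ← mul_assoc, mul_assoc _ ((G * z) ^ i), ← mul_pow, mul_inv_cancel₀ hh0, one_pow,
        mul_one]
    exact h3.trans h5
  rw [h2]
  refine P.reg_neg ?_
  change _ ∈ P.O
  exact sum_mem fun i hi => mul_mem (hc i (Finset.mem_range.1 hi)) (pow_mem hinv _)

/-- **Regular tensors whose ratios generate the field.** -/
theorem exists_gen [CharZero k] [Algebra.EssFiniteType k F] {e N : ℕ}
    (he : Algebra.trdeg k F = e) {y : Fin e → F} {f : Fin (e + 1) → F}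
    (hf : ∀ i, PReg k e N (f i) y) (hf0 : f 0 ≠ 0)
    (hind : AlgebraicIndependent k (fun i : Fin e => f i.succ / f 0)) :
    ∃ (M : ℕ) (Z : Fin (e + 1 + 1) → F), 0 < M ∧ Z ≠ 0 ∧ coords k Z = ⊤ ∧
      ∀ i, PReg k e (N * M) (Z i) y := by
  classical
  set t : Fin e → F := fun i => f i.succ / f 0 with ht
  have hbas : IsTranscendenceBasis k t := by
    refine hind.isTranscendenceBasis_of_lift_trdeg_le_of_finite ?_
    rw [he]
    simp
  have hfin := fin_adjoin t hbas
  obtain ⟨α, hα⟩ := Field.exists_primitive_element (adjoin k (Set.range t)) F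
  have halg : Algebra.IsAlgebraic (Algebra.adjoin k (Set.range t)) F := hbas.isAlgebraic
  obtain ⟨b, hb0, hbα⟩ := (halg.isAlgebraic α).exists_integral_multiple
  set z : F := b • α with hz
  obtain ⟨M, hM, hreg⟩ := reg_int hbα
  set Z : Fin (e + 1 + 1) → F := Fin.snoc (α := fun _ => F) (fun i => f 0 ^ (M - 1) * f i)
    (f 0 ^ M * z) with hZ
  have hZc : ∀ i : Fin (e + 1), Z i.castSucc = f 0 ^ (M - 1) * f i := fun i => by
    simp only [hZ, Fin.snoc_castSucc]
  have hZl : Z (Fin.last (e + 1)) = f 0 ^ M * z := by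
    simp only [hZ, Fin.snoc_last]
  have hM1 : f 0 ^ (M - 1) * f 0 = f 0 ^ M := by
    rw [← pow_succ]
    congr 1
    omega
  have hZ0 : Z (Fin.castSucc 0) = f 0 ^ M := by rw [hZc, hM1]
  have hZ0' : Z (Fin.castSucc 0) ≠ 0 := by
    rw [hZ0]
    exact pow_ne_zero _ hf0
  refine ⟨M, Z, hM, fun h => hZ0' (congrFun h _), ?_, ?_⟩
  · have htc : ∀ i, t i ∈ coords k Z := by
      intro i
      refine subset_adjoin k _ ⟨(Fin.succ i).castSucc, Fin.castSucc 0, hZ0', ?_⟩
      rw [hZc, hZ0, ← hM1, mul_div_mul_left _ _ (pow_ne_zero _ hf0)]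
    have hzc : z ∈ coords k Z := by
      refine subset_adjoin k _ ⟨Fin.last (e + 1), Fin.castSucc 0, hZ0', ?_⟩
      rw [hZl, hZ0, mul_div_cancel_left₀ _ (pow_ne_zero _ hf0)]
    have hbc : (b : F) ∈ coords k Z := by
      have h1 : Algebra.adjoin k (Set.range t) ≤ (coords k Z).toSubalgebra :=
        Algebra.adjoin_le (by
          rintro _ ⟨i, rfl⟩
          exact htc i)
      exact h1 b.2
    have hαc : α ∈ coords k Z := by
      have hb' : (b : F) ≠ 0 := fun h => hb0 (Subtype.ext h)
      have h1 : α = z / b := by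
        rw [hz, eq_div_iff hb', Algebra.smul_def]
        change _ = (b : F) * α
        ring
      rw [h1]
      exact div_mem hzc hbc
    rw [eq_top_iff]
    have h2 : adjoin k (Set.range t ∪ {α}) = ⊤ := by
      rw [← adjoin_adjoin_left, hα, restrictScalars_top]
    rw [← h2, adjoin_le_iff]
    rintro x (⟨i, rfl⟩ | hx)
    · exact htc i
    · rw [Set.mem_singleton_iff] at hx
      rw [hx]
      exact hαc
  · intro i P hP D hD
    set q := (Matrix.of fun i j => D i (y j)).det ^ N with hq
    have hqM : (Matrix.of fun i j => D i (y j)).det ^ (N * M) = q ^ M := by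
      rw [hq, ← pow_mul]
    rw [hqM]
    have hg : ∀ i, P.Reg (f i * q) := fun i => hf i P hP D hD
    have h3 : q ^ M = q ^ (M - 1) * q := by
      rw [← pow_succ]
      congr 1
      omega
    refine Fin.lastCases ?_ (fun i => ?_) i
    · rw [hZl]
      by_cases hq0 : q = 0
      · rw [hq0, zero_pow hM.ne', mul_zero]
        exact P.reg_zero
      · have h1 := hreg P (fun i => f i * q) hg (mul_ne_zero hf0 hq0) (fun i => by
          rw [mul_div_mul_right _ _ hq0])
        have h2 : f 0 ^ M * z * q ^ M = (f 0 * q) ^ M * z := by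
          rw [mul_pow]
          ring
        rw [h2]
        exact h1
    · rw [hZc, h3]
      have h2 : f 0 ^ (M - 1) * f i * (q ^ (M - 1) * q) = (f 0 * q) ^ (M - 1) * (f i * q) := by
        rw [mul_pow]
        ring
      rw [h2]
      exact P.reg_mul (reg_pow (hg 0) _) (hg i)

end Pool.Agent.X332.GT
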