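import Mathlib
import Pool.Agent.X332.GT.Germ
import Pool.Agent.X332.GT.Prim
import Pool.Agent.TH143.DE.Gen

/-!
Fields of germs which are stable under the shift contain no subfields of general type.
-/

set_option autoImplicit false

namespace Pool.Agent.X332.GT

open Filter Module MvPolynomial FF Pool.Agent.W602.GT Pool.Agent.TH143.GT Pool.Agent.TH143.HE
  Pool.Agent.TH143.TW Pool.Agent.TH143.DE Pool.Agent.W603.GR

theorem trLe_EC : TrLe EC 0 := by
  intro b hb
  obtain ⟨c, hc⟩ := hb 0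
  refine ⟨X 0 - C c, fun h => ?_, ?_⟩
  · have h1 := congrArg (eval (fun _ => c + 1)) h
    rw [map_sub, eval_X, eval_C, map_zero, add_sub_cancel_left] at h1
    exact one_ne_zero h1
  · filter_upwards [hc] with m hm
    rw [map_sub, eval_X, eval_C, hm, sub_self]

/-- the ideal of the relations between homogeneous coordinates -/
noncomputable def relI {F : Type} [Field F] [Algebra ℂ F] {N : ℕ} (Z : Fin (N + 1) → F) :
    Ideal (MvPolynomial (Fin (N + 1)) ℂ) :=
  Ideal.span {H | W602.GT.IsForm H ∧ W602.GT.val Z H = 0}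

theorem relI_funField {F : Type} [Field F] [Algebra ℂ F] {N w : ℕ} {Z : Fin (N + 1) → F}
    (hZ : Z ≠ 0) (hgen : coords ℂ Z = ⊤) (hw : Algebra.trdeg ℂ F = w) :
    FunField (relI Z) 1 F w Z := by
  refine ⟨⟨hZ, fun H hH => ?_, ?_, hgen, hw⟩, fun H hH h0 => Ideal.subset_span ⟨hH, h0⟩⟩
  · have h1 : relI Z ≤ RingHom.ker (aeval Z : MvPolynomial (Fin (N + 1)) ℂ →ₐ[ℂ] F) :=
      Ideal.span_le.2 fun H hH => hH.2
    exact h1 hH
  · rw [Pool.Agent.TH143.DE.val_one]
    exact one_ne_zero

section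

variable {K : Type} [Field K] [Algebra ℂ K] {j : K →ₐ[ℂ] GG} {s : K →ₐ[ℂ] K} {e : ℕ}

/-- the points given by regular tensors -/
theorem exists_notFlat [Algebra.EssFiniteType ℂ K] {n : ℕ} (hn : Algebra.trdeg ℂ K = (n + 1 : ℕ))
    (hs : ∀ z, j (s z) = shG (j z)) {F : Type} [Field F] [Algebra ℂ F]
    [Algebra.EssFiniteType ℂ F] (ι : F →ₐ[ℂ] K) (he : 0 < e) (hF : Algebra.trdeg ℂ F = e)
    {y : Fin e → F} (hy : IsTranscendenceBasis ℂ y) {M N : ℕ} (hM : 0 < M)
    {Z : Fin (N + 1) → F} (hZ : Z ≠ 0) (hgen : coords ℂ Z = ⊤)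
    (hreg : ∀ i, PReg ℂ e M (Z i) y) : ∃ r : F, ¬ AllFlat (1 : MvPolynomial (Fin (N + 1)) ℂ) Z r := by
  classical
  obtain ⟨u, hub⟩ : ∃ u : Fin (n + 1) → K, IsTranscendenceBasis ℂ u := by
    obtain ⟨B, hB⟩ := exists_isTranscendenceBasis ℂ K
    have hcard := hB.cardinalMk_eq_trdeg
    rw [hn] at hcard
    have hfin : Finite B := by
      rw [← Cardinal.lt_aleph0_iff_finite, hcard]
      exact Cardinal.natCast_lt_aleph0
    obtain ⟨m', ⟨e'⟩⟩ := Finite.exists_equiv_fin B
    obtain rfl : m' = n + 1 := by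
      rw [Cardinal.mk_congr e', Cardinal.mk_fin] at hcard
      exact_mod_cast hcard
    exact ⟨fun i => (e'.symm i : K), hB.comp_equiv e'.symm⟩
  choose E hE using fun i => exists_der u hub (fun j => if i = j then (1 : K) else 0)
  have hu : Dual u E := ⟨hub, hE⟩
  have hind : AlgebraicIndependent ℂ (fun i => ι (y i)) :=
    AlgebraicIndependent.map' hy.1 (f := ι) ι.toRingHom.injective
  obtain ⟨γ, hγ, hdet⟩ := exists_frame (j := j) (s := s) hn hu (fun i => ι (y i)) hind
  set Δ : GG := (Matrix.of fun a b => ∑ l, γ a l * j (E l (ι (y b)))).det ^ M with hΔ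
  have hΔu : IsUnit Δ := hdet.pow M
  choose x' hx' using fun i => gg_surj (tv j E γ M (ι (Z i)) fun i => ι (y i))
  let x : ℕ → Fin (N + 1) → ℂ := fun m i => x' i m
  have hx : ∀ i, gg (fun m => x m i) = Δ * j (ι (Z i)) := by
    intro i
    have h1 := hx' i
    unfold tv at h1
    rw [mul_comm] at h1
    exact h1
  have hrec : ∀ i, LinRec EC fun m => x m i := by
    intro i
    refine linRec_tv hn hs hu hγ (f := ι (Z i)) (y := fun i => ι (y i)) (N := M) (fun r => ?_)
      (hx' i)
    exact PReg.ext hM hF hn ((s ^ r).comp ι) (hreg i)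
  have hform : ∀ (H : MvPolynomial (Fin (N + 1)) ℂ), W602.GT.IsForm H →
      ((∀ᶠ m in atTop, eval (x m) H = 0) ↔ W602.GT.val Z H = 0) := by
    rintro H ⟨d, hd⟩
    have h1 : gg (fun m => eval (x m) H) = Δ ^ d * j (ι (W602.GT.val Z H)) := by
      have h2 := MvPolynomial.comp_aeval_apply (f := fun i => (fun m => x m i : ℕ → ℂ)) gg H
      have h3 : (aeval (fun i => (fun m => x m i : ℕ → ℂ)) H : ℕ → ℂ) =
          fun m => eval (x m) H := by
        funext m
        have h7 := MvPolynomial.comp_aeval_apply (f := fun i => (fun m => x m i : ℕ → ℂ))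
          (Pi.evalAlgHom ℂ (fun _ : ℕ => ℂ) m) H
        have h8 : (aeval (fun i => (fun m => x m i : ℕ → ℂ)) H : ℕ → ℂ) m =
          aeval (fun i => x m i) H := h7
        rw [h8, MvPolynomial.aeval_eq_eval]
      rw [h3] at h2
      rw [h2]
      simp only [hx]
      have h4 := eval₂_smul_homog (algebraMap ℂ GG) Δ (fun i => j (ι (Z i))) hd
      have h5 : (aeval (fun i => Δ * j (ι (Z i))) H : GG) =
          eval₂ (algebraMap ℂ GG) (fun i => Δ * j (ι (Z i))) H := rfl
      rw [h5, h4]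
      congr 1
      have h6 := MvPolynomial.comp_aeval_apply (f := Z) (j.comp ι) H
      exact h6.symm
    rw [← Pool.Agent.TH143.GE.gg_zero, h1, (hΔu.pow d).mul_right_eq_zero]
    constructor
    · intro h
      have h2 : j (ι (W602.GT.val Z H)) = j (ι 0) := by rw [h, map_zero, map_zero]
      exact ι.toRingHom.injective (j.toRingHom.injective h2)
    · intro h
      rw [h, map_zero, map_zero]
  have hff := relI_funField hZ hgen hF
  refine main_seq EC_field trLe_EC (isHomogeneous_one _ _) hff he hrec ?_ ?_ ?_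
  · obtain ⟨T, hTS, hT⟩ := (Submodule.fg_span_iff_fg_span_finset_subset
      {H : MvPolynomial (Fin (N + 1)) ℂ | W602.GT.IsForm H ∧ W602.GT.val Z H = 0}).1
      (IsNoetherian.noetherian (Submodule.span (MvPolynomial (Fin (N + 1)) ℂ) _))
    have h1 : ∀ᶠ m in atTop, ∀ G ∈ T, eval (x m) G = 0 := by
      rw [Finset.eventually_all]
      intro G hG
      exact (hform G (hTS hG).1).2 (hTS hG).2
    filter_upwards [h1] with m hm
    intro G hG
    have h2 : Submodule.span (MvPolynomial (Fin (N + 1)) ℂ)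
        {H : MvPolynomial (Fin (N + 1)) ℂ | W602.GT.IsForm H ∧ W602.GT.val Z H = 0} ≤
        RingHom.ker (eval (x m) : MvPolynomial (Fin (N + 1)) ℂ →+* ℂ) := by
      rw [hT]
      exact Submodule.span_le.2 fun G hG => hm G hG
    exact h2 hG
  · exact ⟨Eventually.of_forall fun m => by rw [map_one]; exact one_ne_zero, fun _ => 1,
      EC.one_mem, Eventually.of_forall fun m => by rw [map_one, map_one, one_mul]⟩
  · intro H hH h0
    exact Ideal.subset_span ⟨hH, (hform H hH).1 h0⟩

/-- **No subfields of general type.** -/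
theorem no_gt [Algebra.EssFiniteType ℂ K] {n : ℕ} (hn : Algebra.trdeg ℂ K = (n + 1 : ℕ))
    (hs : ∀ z, j (s z) = shG (j z)) {F : Type} [Field F] [Algebra ℂ F]
    [Algebra.EssFiniteType ℂ F] (ι : F →ₐ[ℂ] K) (he : 0 < e) : ¬ GeneralType ℂ F e := by
  classical
  rintro ⟨hF, N, hN, ω, hpl, hreg, D0, hD0, hind⟩
  obtain ⟨y, hyb⟩ : ∃ y : Fin e → F, IsTranscendenceBasis ℂ y := by
    obtain ⟨B, hB⟩ := exists_isTranscendenceBasis ℂ F
    have hcard := hB.cardinalMk_eq_trdeg
    rw [hF] at hcard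
    have hfin : Finite B := by
      rw [← Cardinal.lt_aleph0_iff_finite, hcard]
      exact Cardinal.natCast_lt_aleph0
    obtain ⟨m', ⟨e'⟩⟩ := Finite.exists_equiv_fin B
    obtain rfl : m' = e := by
      rw [Cardinal.mk_congr e', Cardinal.mk_fin] at hcard
      exact_mod_cast hcard
    exact ⟨fun i => (e'.symm i : F), hB.comp_equiv e'.symm⟩
  choose E hE using fun i => exists_der y hyb (fun j => if i = j then (1 : F) else 0)
  have hDu : Dual y E := ⟨hyb, hE⟩
  have hω : ∀ i D, ω i E * (Matrix.of fun a b => D a (y b)).det ^ N = ω i D := by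
    intro i D
    have h1 := hpl i (Matrix.of fun i j => D i (y j)) E
    have h2 : (fun i => ∑ j, (Matrix.of fun i j => D i (y j)) i j • E j) = D := by
      funext i
      exact (hDu.expand (D i)).symm
    rw [h2] at h1
    rw [h1, mul_comm]
  set f : Fin (e + 1) → F := fun i => ω i E with hf
  have hdet0 : (Matrix.of fun a b => D0 a (y b)).det ^ N ≠ 0 := by
    intro h
    apply hD0
    rw [← hω, h, mul_zero]
  have hf0 : f 0 ≠ 0 := by
    intro h
    apply hD0
    rw [← hω]
    change f 0 * _ = 0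
    rw [h, zero_mul]
  have hind' : AlgebraicIndependent ℂ (fun i : Fin e => f i.succ / f 0) := by
    have h1 : (fun i : Fin e => f i.succ / f 0) = fun i => ω i.succ D0 / ω 0 D0 := by
      funext i
      rw [← hω i.succ, ← hω 0, mul_div_mul_right _ _ hdet0]
    rw [h1]
    exact hind
  obtain ⟨M, Z, hM, hZ, hgen, hZr⟩ := exists_gen hF (y := y) (f := f) (N := N)
    (fun i P hP D hD => by
      change P.Reg (ω i E * _)
      rw [hω]
      exact hreg P hP i D hD) hf0 hind'
  obtain ⟨r, hr⟩ := exists_notFlat hn hs ι he hF hyb (Nat.mul_pos hN hM) hZ hgen hZr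
  apply hr
  refine flat_gt (relI_funField hZ hgen hF) (isHomogeneous_one _ _) ?_ r
  refine ⟨hF, N, hN, ω, hpl, fun P hP j D hD => ?_, fun P hP _ j => hreg P hP j, D0, hD0, hind⟩
  exact hreg P hP j D fun i => reg_of_log (hD i)

end

end Pool.Agent.X332.GT
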