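import Mathlib
import Pool.Agent.X332.GT.NoGT
import Pool.Agent.X332.TO.Base
import Pool.Agent.TH143.GE.Iff
import Pool.Agent.Y377.IL.Gen

/-!
Sequences of points on varieties whose subvarieties are of general type.
-/

set_option autoImplicit false

namespace Pool.Agent.X332.GT

open Filter Module MvPolynomial FF Pool.Agent.W602.GT Pool.Agent.TH143.HE
  Pool.Agent.TH143.TW Pool.Agent.TH143.DE Pool.Agent.TH143.GE

variable {N : ℕ} {R : Type} [CommRing R]

/-- All subvarieties of positive dimension of the variety of `I` which are not contained in the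
variety of `I'` are of general type: `F` is the function field and `y` the generic point of the
subvariety, `w` is its dimension. -/
def AllGT (φ : R →+* ℂ) (I I' : Ideal (MvPolynomial (Fin (N + 1)) R)) : Prop :=
  ∀ (F : Type) [Field F] [Algebra ℂ F] (w : ℕ) (y : Fin (N + 1) → F), 1 ≤ w →
    Algebra.trdeg ℂ F = w → y ≠ 0 → coords ℂ y = ⊤ →
    IsPtP ((algebraMap ℂ F).comp φ) I y → ¬ IsPtP ((algebraMap ℂ F).comp φ) I' y →
    GeneralType ℂ F w

theorem trdeg_nat (K : Type) [Field K] [Algebra ℂ K] [Algebra.EssFiniteType ℂ K] :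
    ∃ w : ℕ, Algebra.trdeg ℂ K = w :=
  Cardinal.lt_aleph0.1 (trdeg_lt_aleph0 ℂ K)

/-- a nonzero multiple of a point -/
theorem isPtP_smul {A : Type} [CommRing A] [IsDomain A] {ψ : R →+* A}
    {J : Ideal (MvPolynomial (Fin (N + 1)) R)} {c : A} (hc : c ≠ 0) (y : Fin (N + 1) → A) :
    IsPtP ψ J (fun i => c * y i) ↔ IsPtP ψ J y := by
  constructor
  · rintro h G hG ⟨d, hd⟩
    have h1 := h G hG ⟨d, hd⟩
    rw [eval₂_smul_homog ψ c y hd] at h1
    exact (mul_eq_zero.1 h1).resolve_left (pow_ne_zero _ hc)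
  · rintro h G hG ⟨d, hd⟩
    rw [eval₂_smul_homog ψ c y hd, h G hG ⟨d, hd⟩, mul_zero]

/-- the subfield generated by a point -/
theorem gt_sub {K : Type} [Field K] [Algebra ℂ K] {φ : R →+* ℂ}
    {I I' : Ideal (MvPolynomial (Fin (N + 1)) R)} (h : AllGT φ I I') {Y : Fin (N + 1) → K}
    (hY0 : Y ≠ 0) (hX : IsPtP ((algebraMap ℂ K).comp φ) I Y)
    (hZ : ¬ IsPtP ((algebraMap ℂ K).comp φ) I' Y)
    (hc : ¬ ∃ (v : K) (c : Fin (N + 1) → ℂ), ∀ i, Y i = algebraMap ℂ K (c i) * v) :
    Algebra.EssFiniteType ℂ (coords ℂ Y) ∧ ∃ w : ℕ, 0 < w ∧ GeneralType ℂ (coords ℂ Y) w := by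
  classical
  have hess : Algebra.EssFiniteType ℂ (coords ℂ Y) := by
    apply IntermediateField.essFiniteType_iff.2
    apply IntermediateField.fg_adjoin_of_finite
    refine (Set.finite_range fun p : Fin (N + 1) × Fin (N + 1) => Y p.1 / Y p.2).subset ?_
    rintro _ ⟨i, j, -, rfl⟩
    exact ⟨(i, j), rfl⟩
  refine ⟨hess, ?_⟩
  obtain ⟨i0, hi0⟩ : ∃ i0, Y i0 ≠ 0 := by
    by_contra hcon
    push Not at hcon
    exact hY0 (funext hcon)
  let y : Fin (N + 1) → coords ℂ Y := fun i =>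
    ⟨Y i / Y i0, IntermediateField.subset_adjoin ℂ _ ⟨i, i0, hi0, rfl⟩⟩
  have hyv : ∀ i, (y i : K) = Y i / Y i0 := fun i => rfl
  have hYy : Y = fun i => Y i0 * (y i : K) := by
    funext i
    rw [hyv, mul_div_cancel₀ _ hi0]
  have hy0 : y ≠ 0 := by
    intro h0
    have h1 := congrArg Subtype.val (congrFun h0 i0)
    rw [hyv, div_self hi0] at h1
    exact one_ne_zero h1
  have hpt : ∀ J : Ideal (MvPolynomial (Fin (N + 1)) R),
      IsPtP ((algebraMap ℂ (coords ℂ Y)).comp φ) J y ↔ IsPtP ((algebraMap ℂ K).comp φ) J Y := by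
    intro J
    have h0 : IsPtP ((algebraMap ℂ K).comp φ) J Y ↔
        IsPtP ((algebraMap ℂ K).comp φ) J (fun i => (y i : K)) := by
      rw [← isPtP_smul (ψ := (algebraMap ℂ K).comp φ) (J := J) hi0 (fun i => (y i : K))]
      exact Iff.of_eq (congrArg _ hYy)
    rw [h0]
    have h1 : ∀ G : MvPolynomial (Fin (N + 1)) R,
        eval₂ ((algebraMap ℂ K).comp φ) (fun i => (y i : K)) G =
          ((eval₂ ((algebraMap ℂ (coords ℂ Y)).comp φ) y G : coords ℂ Y) : K) := by
      intro G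
      exact (MvPolynomial.eval₂_comp_left ((coords ℂ Y).val : coords ℂ Y →+* K)
        ((algebraMap ℂ (coords ℂ Y)).comp φ) y G).symm
    constructor
    · intro h2 G hG hGh
      rw [h1, h2 G hG hGh]
      rfl
    · intro h2 G hG hGh
      have h3 := h2 G hG hGh
      rw [h1] at h3
      exact Subtype.ext h3
  have hgen : coords ℂ y = ⊤ := by
    apply IntermediateField.map_injective (coords ℂ Y).val
    rw [← AlgHom.fieldRange_eq_map, IntermediateField.fieldRange_val]
    unfold coords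
    rw [IntermediateField.adjoin_map]
    apply le_antisymm
    · rw [IntermediateField.adjoin_le_iff]
      rintro _ ⟨_, ⟨i, j, hj, rfl⟩, rfl⟩
      have h1 : (coords ℂ Y).val (y i / y j) = Y i / Y j := by
        rw [map_div₀]
        change (Y i / Y i0) / (Y j / Y i0) = _
        rw [div_div_div_cancel_right₀ hi0]
      change (coords ℂ Y).val (y i / y j) ∈ _
      rw [h1]
      have hj0 : Y j ≠ 0 := by
        intro h0
        apply hj
        apply Subtype.ext
        rw [hyv, h0, zero_div]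
        rfl
      exact IntermediateField.subset_adjoin ℂ _ ⟨i, j, hj0, rfl⟩
    · rw [IntermediateField.adjoin_le_iff]
      rintro _ ⟨i, j, hj, rfl⟩
      have hj0 : y j ≠ 0 := by
        intro h0
        have h1 := congrArg Subtype.val h0
        rw [hyv] at h1
        exact (div_ne_zero hj hi0) h1
      have h1 : (coords ℂ Y).val (y i / y j) = Y i / Y j := by
        rw [map_div₀]
        change (Y i / Y i0) / (Y j / Y i0) = _
        rw [div_div_div_cancel_right₀ hi0]
      rw [← h1]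
      exact IntermediateField.subset_adjoin ℂ _ ⟨_, ⟨i, j, hj0, rfl⟩, rfl⟩
  obtain ⟨w, hw⟩ := trdeg_nat (coords ℂ Y)
  rcases Nat.eq_zero_or_pos w with h0 | hw0
  · exfalso
    apply hc
    rw [h0, Nat.cast_zero, _root_.trdeg_eq_zero_iff] at hw
    have h1 : ∀ z : coords ℂ Y, ∃ a : ℂ, algebraMap ℂ (coords ℂ Y) a = z := by
      intro z
      have h3 : IsAlgebraic ℂ z := hw.isAlgebraic z
      have h4 := IsAlgClosed.degree_eq_one_of_irreducible ℂ (minpoly.irreducible h3.isIntegral)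
      exact minpoly.mem_range_of_degree_eq_one ℂ _ h4
    choose a ha using h1
    refine ⟨Y i0, fun i => a (y i), fun i => ?_⟩
    have h2 := congrArg Subtype.val (ha (y i))
    have h3 : algebraMap ℂ K (a (y i)) = (y i : K) := h2
    rw [h3, hyv, div_mul_cancel₀ _ hi0]
  · exact ⟨w, hw0, h (coords ℂ Y) w y hw0 hw hy0 hgen ((hpt I).2 hX) fun h1 => hZ ((hpt I').1 h1)⟩

section

variable {K : Type} [Field K] [Algebra ℂ K] {j : K →ₐ[ℂ] GG} {s : K →ₐ[ℂ] K}

/-- **Sequences over a finitely generated field of germs.** -/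
theorem per_fldG {φ : R →+* ℂ} {I I' : Ideal (MvPolynomial (Fin (N + 1)) R)}
    (h : AllGT φ I I') (hs : ∀ z, j (s z) = shG (j z)) (hess : Algebra.EssFiniteType ℂ K)
    {x : ℕ → Fin (N + 1) → ℂ} {Y : Fin (N + 1) → K}
    (hY : ∀ i, j (Y i) = gg fun m => x m i)
    (hX : ∀ᶠ m in atTop, IsPtP φ I (x m))
    (hZ : ∀ᶠ m in atTop, ¬ IsPtP φ I' (x m)) : Per x := by
  by_cases hc : ∃ (v : K) (c : Fin (N + 1) → ℂ), ∀ i, Y i = algebraMap ℂ K (c i) * v
  · exact per_const hY hc
  exfalso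
  have hY0 : Y ≠ 0 := by
    rintro rfl
    exact hc ⟨0, 0, fun i => by rw [mul_zero]; rfl⟩
  have hZ' : ¬ IsPtP ((algebraMap ℂ K).comp φ) I' Y := by
    intro h1
    obtain ⟨m, hm1, hm2⟩ := ((isPtP_ev hY h1).and hZ).exists
    exact hm2 hm1
  obtain ⟨h1, e, he, hgt⟩ := gt_sub h hY0 (ev_isPtP hY hX) hZ' hc
  obtain ⟨n, hn⟩ := trdeg_nat K
  have hle : Algebra.trdeg ℂ (coords ℂ Y) ≤ Algebra.trdeg ℂ K :=
    trdeg_le_of_injective (coords ℂ Y).val (coords ℂ Y).val.injective
  rw [hgt.1, hn] at hle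
  have hle' : e ≤ n := by exact_mod_cast hle
  obtain ⟨n', rfl⟩ : ∃ n', n = n' + 1 := ⟨n - 1, by omega⟩
  exact no_gt hn hs (coords ℂ Y).val he hgt

end

/-- sequences over a field of germs -/
theorem per_subG {φ : R →+* ℂ} {I I' : Ideal (MvPolynomial (Fin (N + 1)) R)}
    (h : AllGT φ I I') {T : Subalgebra ℂ GG} (hT : IsFld T)
    (hess : Algebra.EssFiniteType ℂ T)
    {x : ℕ → Fin (N + 1) → ℂ} (hY : ∀ i, (gg fun m => x m i) ∈ T)
    (hX : ∀ᶠ m in atTop, IsPtP φ I (x m))
    (hZ : ∀ᶠ m in atTop, ¬ IsPtP φ I' (x m)) : Per x := by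
  let _ : Field T := hT.isField.toField
  let s : T →ₐ[ℂ] T :=
    { toFun := fun x => ⟨shG x, hT.1 x x.2⟩
      map_one' := Subtype.ext (map_one shG)
      map_mul' := fun x y => Subtype.ext (map_mul shG (x : GG) (y : GG))
      map_zero' := Subtype.ext (map_zero shG)
      map_add' := fun x y => Subtype.ext (map_add shG (x : GG) (y : GG))
      commutes' := fun c => Subtype.ext (by
        change shG (algebraMap ℂ GG c) = algebraMap ℂ GG c
        rw [← gg.commutes c, shG_gg]
        rfl) }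
  exact per_fldG (K := T) (j := T.val) (s := s) h (fun z => rfl) hess
    (Y := fun i => ⟨_, hY i⟩) (fun i => rfl) hX hZ

/-- Every sequence of points of the variety of `I`, outside of the variety of `I'`, with homogeneous
coordinates in a finitely generated field of coefficients is eventually periodic. -/
def FldPer (φ : R →+* ℂ) (I I' : Ideal (MvPolynomial (Fin (N + 1)) R)) : Prop :=
  ∀ B : Subalgebra ℂ (ℕ → ℂ), CoefField B → FinGen B →
    ∀ x : ℕ → Fin (N + 1) → ℂ, (∀ᶠ m in atTop, x m ≠ 0) → (∀ j, (fun m => x m j) ∈ B) →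
    (∀ᶠ m in atTop, IsPtP φ I (x m)) → (∀ᶠ m in atTop, ¬ IsPtP φ I' (x m)) → Per x

theorem fldPer_of_allGT {φ : R →+* ℂ} {I I' : Ideal (MvPolynomial (Fin (N + 1)) R)}
    (h : AllGT φ I I') : FldPer φ I I' := by
  intro B hB hF x hne hx hX hZ
  have hess := ess_of_finGen hB hF
  let s : KB B hB →ₐ[ℂ] KB B hB :=
    { shK hB with
      commutes' := fun c => by
        apply jK_inj hB
        change algebraMap (KB B hB) GG (shK hB (algebraMap ℂ (KB B hB) c)) = _
        rw [← shG_alg, ← IsScalarTower.algebraMap_apply, ← gg.commutes c, shG_gg, jK_apply,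
          ← IsScalarTower.algebraMap_apply, ← gg.commutes c]
        rfl }
  exact per_fldG (K := KB B hB) (j := jK hB) (s := s) h (fun z => (shG_alg hB z).symm) hess
    (Y := fun i => cK hB ⟨_, hx i⟩) (fun i => jK_cK hB _) hX hZ

/-- no rational curves -/
theorem rat_of_fldPer {φ : R →+* ℂ} {I I' : Ideal (MvPolynomial (Fin (N + 1)) R)}
    (h : FldPer φ I I') : RatCurvesIn φ I I' := by
  by_contra hcon
  obtain ⟨z, h1, h2, h3, h4, h5⟩ := bad_rat hcon
  exact h5 (h RB RB_field (ratB_fg _) z h2 h1 h3 h4)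

end Pool.Agent.X332.GT
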