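import Mathlib
import Pool.Agent.X332.GT.Seqs

/-!
Towers of fields of coefficients over arbitrary finitely generated fields.
-/

set_option autoImplicit false

namespace Pool.Agent.X332.GT

open Filter Module MvPolynomial FF Pool.Agent.W602.GT Pool.Agent.TH143.HE
  Pool.Agent.TH143.TW Pool.Agent.TH143.DE Pool.Agent.TH143.GE

theorem finGen_of_ess {T : Subalgebra ℂ GG} (hess : Algebra.EssFiniteType ℂ T) :
    FinGen (BS T) := by
  classical
  obtain ⟨σ, hσ⟩ := (Algebra.essFiniteType_iff ℂ T).1 hess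
  choose rep hrep using fun z : T => gg_surj (z : GG)
  have hlift : ∀ z ∈ Algebra.adjoin ℂ (σ : Set T), ∃ f ∈ Algebra.adjoin ℂ (rep '' (σ : Set T)),
      gg f = (z : GG) := by
    intro z hz
    induction hz using Algebra.adjoin_induction with
    | mem x hx => exact ⟨rep x, Algebra.subset_adjoin ⟨x, hx, rfl⟩, hrep x⟩
    | algebraMap c => exact ⟨algebraMap ℂ (ℕ → ℂ) c, Subalgebra.algebraMap_mem _ c, gg.commutes c⟩
    | add x y _ _ hx hy =>
      obtain ⟨f, hf, hfx⟩ := hx
      obtain ⟨g, hg, hgy⟩ := hy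
      exact ⟨f + g, add_mem hf hg, by rw [map_add, hfx, hgy]; rfl⟩
    | mul x y _ _ hx hy =>
      obtain ⟨f, hf, hfx⟩ := hx
      obtain ⟨g, hg, hgy⟩ := hy
      exact ⟨f * g, mul_mem hf hg, by rw [map_mul, hfx, hgy]; rfl⟩
  refine ⟨rep '' (σ : Set T), σ.finite_toSet.image _, ?_, ?_⟩
  · rintro _ ⟨x, _, rfl⟩
    change gg (rep x) ∈ T
    rw [hrep]
    exact x.2
  · intro b hb
    obtain ⟨t, ht, htu, hst⟩ := hσ ⟨gg b, hb⟩
    obtain ⟨q, hq, hqt⟩ := hlift t ht
    obtain ⟨p, hp, hps⟩ := hlift _ hst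
    refine ⟨p, hp, q, hq, ?_, ?_⟩
    · apply unit_ne
      rw [hqt]
      exact htu.map T.val
    · have h1 : gg (b * q) = gg p := by
        rw [map_mul, hps, hqt]
        rfl
      exact gg_eq.1 h1

variable {N : ℕ} {R : Type} [CommRing R]

theorem per_subF {φ : R →+* ℂ} {I I' : Ideal (MvPolynomial (Fin (N + 1)) R)}
    (h : FldPer φ I I') {T : Subalgebra ℂ GG} (hT : IsFld T)
    (hess : Algebra.EssFiniteType ℂ T)
    {x : ℕ → Fin (N + 1) → ℂ} (hY : ∀ i, (gg fun m => x m i) ∈ T)
    (hne : ∀ᶠ m in atTop, x m ≠ 0)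
    (hX : ∀ᶠ m in atTop, IsPtP φ I (x m))
    (hZ : ∀ᶠ m in atTop, ¬ IsPtP φ I' (x m)) : Per x :=
  h (BS T) hT.field (finGen_of_ess hess) x hne hY hX hZ

section

variable {k : Type} [Field k] [Algebra ℂ k] [Algebra k GG] [IsScalarTower ℂ k GG]
  {S : Subalgebra k GG}

/-- the field of the restriction is finitely generated -/
theorem Sa_ess (hfin : Module.Finite k S) {M : ℕ} (hM : 0 < M) (a : ℕ)
    (hfld : IsFld (Sa S a M hM)) (hess : Algebra.EssFiniteType ℂ k) :
    Algebra.EssFiniteType ℂ (Sa S a M hM) := by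
  let _ : Field (Sa S a M hM) := hfld.isField.toField
  let i : k →ₐ[ℂ] (Sa S a M hM) :=
    AlgHom.codRestrict ((resG a M hM).comp (IsScalarTower.toAlgHom ℂ k GG)) _ fun c =>
      ⟨algebraMap k GG c, S.algebraMap_mem c, rfl⟩
  let _ : Algebra k (Sa S a M hM) := (i : k →+* (Sa S a M hM)).toAlgebra
  have hf : Module.Finite k (Sa S a M hM) := by
    let f : S →ₗ[k] (Sa S a M hM) :=
      { toFun := fun x => ⟨resG a M hM x, ⟨x, x.2, rfl⟩⟩
        map_add' := fun x y => Subtype.ext (map_add (resG a M hM) (x : GG) (y : GG))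
        map_smul' := fun c x => Subtype.ext (by
          change resG a M hM (c • (x : GG)) =
            resG a M hM (algebraMap k GG c) * resG a M hM (x : GG)
          rw [Algebra.smul_def, map_mul]) }
    refine Module.Finite.of_surjective f ?_
    rintro ⟨_, x, hx, rfl⟩
    exact ⟨⟨x, hx⟩, rfl⟩
  have h2 : IsScalarTower ℂ k (Sa S a M hM) :=
    IsScalarTower.of_algebraMap_eq fun c => (i.commutes c).symm
  exact Algebra.EssFiniteType.comp ℂ k (Sa S a M hM)

/-- sequences over a finite difference algebra -/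
theorem per_splitF {φ : R →+* ℂ} {I I' : Ideal (MvPolynomial (Fin (N + 1)) R)}
    (h : FldPer φ I I') (hess : Algebra.EssFiniteType ℂ k)
    (hst : ∀ x ∈ S, shG x ∈ S) (hfin : Module.Finite k S)
    {x : ℕ → Fin (N + 1) → ℂ} (hY : ∀ i, (gg fun m => x m i) ∈ S)
    (hne : ∀ᶠ m in atTop, x m ≠ 0)
    (hX : ∀ᶠ m in atTop, IsPtP φ I (x m))
    (hZ : ∀ᶠ m in atTop, ¬ IsPtP φ I' (x m)) : Per x := by
  obtain ⟨M, hM, hp⟩ := exists_period hst hfin
  refine per_of_classes hne hM fun a => ?_
  have hfld := Sa_fld hst hfin hM hp a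
  exact per_subF h hfld (Sa_ess hfin hM a hfld hess) (x := fun m => x (a + M * m))
    (fun i => ⟨_, hY i, rfl⟩) (ev_res hne hM) (ev_res hX hM) (ev_res hZ hM)

end

variable {B B' : Subalgebra ℂ (ℕ → ℂ)}

/-- **The theorem over a finitely generated field.** -/
theorem good_fin {φ : R →+* ℂ} {I I' : Ideal (MvPolynomial (Fin (N + 1)) R)}
    (h' : FldPer φ I I') (hB : CoefField B)
    (hess : Algebra.EssFiniteType ℂ (KB B hB)) :
    Good φ I I' B := by
  classical
  have h : RatCurvesIn φ I I' := rat_of_fldPer h'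
  intro x hne hx hX hZ
  -- a linear form
  obtain ⟨c, hc⟩ := exists_linear (fun m => if x m = 0 then fun _ => 1 else x m) (by
    intro m
    by_cases h0 : x m = 0
    · simp only [if_pos h0]
      intro h1
      exact one_ne_zero (congrFun h1 0)
    · simp only [if_neg h0]
      exact h0)
  let ℓ : MvPolynomial (Fin (N + 1)) ℂ := ∑ j : Fin (N + 1), C (c ^ (j : ℕ)) * X j
  have hℓ : ℓ.IsHomogeneous 1 := by
    refine IsHomogeneous.sum _ _ _ fun j _ => ?_
    have h2 := (isHomogeneous_C (Fin (N + 1)) (c ^ (j : ℕ))).mul (isHomogeneous_X ℂ j)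
    rwa [zero_add] at h2
  have hℓe : ∀ v : Fin (N + 1) → ℂ, eval v ℓ = ∑ j : Fin (N + 1), c ^ (j : ℕ) * v j := by
    intro v
    simp only [ℓ, map_sum, map_mul, eval_C, eval_X]
  have hℓx : ∀ᶠ m in atTop, eval (x m) ℓ ≠ 0 := by
    filter_upwards [hne] with m hm
    have h1 := hc m
    simp only [if_neg hm] at h1
    rw [hℓe]
    exact h1
  let s : Set (MvPolynomial (Fin (N + 1)) ℂ) :=
    {G | ∃ G0 ∈ I, (∃ d, G0.IsHomogeneous d) ∧ G = MvPolynomial.map φ G0}
  obtain ⟨t, ht⟩ := exists_rc hB hx hℓ hℓx (s := s)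
    (by
      rintro _ ⟨G0, _, ⟨d, hd⟩, rfl⟩
      exact ⟨d, hd.map φ⟩)
    (by
      rintro _ ⟨G0, hG0, hd, rfl⟩
      filter_upwards [hX] with m hm
      rw [eval_map]
      exact hm G0 hG0 hd)
  let y : Fin (N + 1) → ℕ → ℂ := fun j m => x (m + t) j / eval (x (m + t)) ℓ
  have hℓt := eventually_shift hℓx t
  have hint : ∀ j, IsIntegral (KB B hB) (gg (y j)) := by
    intro j
    refine int_of_cf hB fun J hJ hJp => ?_
    have hdom : IsDomain ((ℕ → ℂ) ⧸ J) := Ideal.Quotient.isDomain J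
    apply rel_of_cf hB hJ hJp (FractionRing ((ℕ → ℂ) ⧸ J))
    by_contra hcon
    obtain ⟨m, ⟨p, h1, h2, h3⟩, h6⟩ :=
      ((ht J hJ hJp (FractionRing ((ℕ → ℂ) ⧸ J)) j hcon).and_eventually
        (eventually_shift hZ t)).exists
    apply h6
    rw [← h2]
    refine h p (fun u G hG hGf => ?_) h3 1
    have h4 := h1 _ ⟨G, hG, hGf, rfl⟩
    have h5 := congrArg (Polynomial.eval u) h4
    rw [Polynomial.eval_zero, eval_aeval, eval_map] at h5
    exact h5
  have hf : ∀ j, LF (KB B hB) (gg fun m => x (m + t) j) := fun j =>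
    LF_of_linRec hB (LinRec.shift hB (hx j) t)
  have hg : LF (KB B hB) (gg fun m => eval (x (m + t)) ℓ) := by
    have h1 : gg (fun m => eval (x (m + t)) ℓ) = ∑ j : Fin (N + 1),
        algebraMap (KB B hB) GG (cK hB ⟨_, B.algebraMap_mem (c ^ (j : ℕ))⟩) *
          gg fun m => x (m + t) j := by
      simp only [alg_cK, ← map_mul]
      rw [← map_sum]
      congr 1
      funext m
      rw [hℓe, Finset.sum_apply]
      rfl
    rw [h1]
    exact LF.sum (shK hB) (shG_alg hB) _ fun j _ =>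
      (LF.alg (shK hB) (shG_alg hB) _).mul (hf j)
  obtain ⟨S, hyS, hst, hfin⟩ := exists_common hB (f := fun j => gg fun m => x (m + t) j)
    (r := fun j => gg (y j)) (g := gg fun m => eval (x (m + t)) ℓ) hf hg (ne_unit hℓt)
    (fun j => by
      rw [← map_mul, gg_eq]
      filter_upwards [hℓt] with m hm
      rw [Pi.mul_apply]
      exact mul_div_cancel₀ _ hm) hint
  have hb : ∀ᶠ m in atTop, (eval (x (m + t)) ℓ)⁻¹ ≠ 0 := by
    filter_upwards [hℓt] with m h2
    exact inv_ne_zero h2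
  refine Per.shift (t := t) (Per.scale (b := fun m => (eval (x (m + t)) ℓ)⁻¹) hb
    (per_splitF h' hess hst hfin (fun i => ?_) ?_ ?_ ?_))
  · have h1 : (fun m => (eval (x (m + t)) ℓ)⁻¹ * x (m + t) i) = y i := by
      funext m
      change _ = x (m + t) i / eval (x (m + t)) ℓ
      rw [div_eq_mul_inv, mul_comm]
    rw [h1]
    exact hyS i
  · filter_upwards [hb, eventually_shift hne t] with m h1 h2 h3
    apply h2
    funext j
    have h4 := congrFun h3 j
    exact (mul_eq_zero.1 h4).resolve_left h1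
  · filter_upwards [eventually_shift hX t] with m h1
    rintro G hG ⟨d, hd⟩
    rw [eval₂_smul_homog φ _ (x (m + t)) hd, h1 G hG ⟨d, hd⟩, mul_zero]
  · filter_upwards [hb, eventually_shift hZ t] with m h1 h2 h3
    apply h2
    rintro G hG ⟨d, hd⟩
    have h4 := h3 G hG ⟨d, hd⟩
    rw [eval₂_smul_homog φ _ (x (m + t)) hd] at h4
    exact (mul_eq_zero.1 h4).resolve_left (pow_ne_zero _ h1)

/-- The towers of fields of coefficients: one starts with an arbitrary finitely generated field; in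
each step one goes to a field of coefficients which is generated by finitely many sequences
satisfying linear recurrences over the previous field. -/
inductive TowF : Subalgebra ℂ (ℕ → ℂ) → Prop
  | base {B : Subalgebra ℂ (ℕ → ℂ)} : CoefField B → FinGen B → TowF B
  | step {B B' : Subalgebra ℂ (ℕ → ℂ)} : TowF B → CoefField B' → Step B B' → TowF B'

theorem TowF.field (h : TowF B) : CoefField B := by
  cases h with
  | base h1 _ => exact h1
  | step _ h2 _ => exact h2

/-- **The theorem for towers.** -/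
theorem towF_good {φ : R →+* ℂ} {I I' : Ideal (MvPolynomial (Fin (N + 1)) R)}
    (h : FldPer φ I I') (hB : TowF B) : Good φ I I' B := by
  induction hB with
  | base h1 h2 => exact good_fin h h1 (ess_of_finGen h1 h2)
  | step h1 h2 h3 ih => exact good_step (rat_of_fldPer h) h1.field h2 h3 ih

end Pool.Agent.X332.GT
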