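import Mathlib
import Pool.Agent.X332.GT.Towers

/-!
The smallest closed set outside of which all sequences over finitely generated fields of coefficients
are eventually periodic.
-/

set_option autoImplicit false

namespace Pool.Agent.X332.GT

open Filter Module MvPolynomial FF Pool.Agent.W602.GT Pool.Agent.TH143.HE
  Pool.Agent.TH143.TW Pool.Agent.TH143.DE Pool.Agent.TH143.GE

variable {N : ℕ}

/-- The common zeros of the forms in `S` with coordinates in `F`. -/
def Zeros (F : Type) [Field F] [Algebra ℂ F] (S : Set (MvPolynomial (Fin (N + 1)) ℂ)) :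
    Set (Fin (N + 1) → F) :=
  {y | ∀ G ∈ S, aeval y G = 0}

/-- The elements of `S` are homogeneous polynomials. -/
def Forms (S : Set (MvPolynomial (Fin (N + 1)) ℂ)) : Prop := ∀ G ∈ S, ∃ d, G.IsHomogeneous d

theorem isPtP_span {F : Type} [Field F] [Algebra ℂ F] {S : Set (MvPolynomial (Fin (N + 1)) ℂ)}
    (hS : Forms S) {y : Fin (N + 1) → F} :
    IsPtP ((algebraMap ℂ F).comp (RingHom.id ℂ)) (Ideal.span S) y ↔ y ∈ Zeros F S := by
  have h0 : ∀ G : MvPolynomial (Fin (N + 1)) ℂ,
      eval₂ ((algebraMap ℂ F).comp (RingHom.id ℂ)) y G = aeval y G := fun G => by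
    rw [RingHom.comp_id]
    rfl
  constructor
  · intro h G hG
    rw [← h0]
    exact h G (Ideal.subset_span hG) (hS G hG)
  · intro h G hG _
    rw [h0]
    have h1 : Ideal.span S ≤ RingHom.ker (aeval y : MvPolynomial (Fin (N + 1)) ℂ →ₐ[ℂ] F) :=
      Ideal.span_le.2 h
    exact h1 hG

theorem isPtP_spanC {S : Set (MvPolynomial (Fin (N + 1)) ℂ)}
    (hS : Forms S) {y : Fin (N + 1) → ℂ} :
    IsPtP (RingHom.id ℂ) (Ideal.span S) y ↔ y ∈ Zeros ℂ S :=
  isPtP_span (F := ℂ) hS

theorem aeval_eval (y : Fin (N + 1) → ℂ) (G : MvPolynomial (Fin (N + 1)) ℂ) :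
    aeval y G = eval y G := by
  rw [MvPolynomial.aeval_eq_eval]

/-- The sequences of points of `X` outside of `Z` with homogeneous coordinates in finitely generated
fields of coefficients are eventually periodic. -/
def Dyn (SX SZ : Set (MvPolynomial (Fin (N + 1)) ℂ)) : Prop :=
  FldPer (RingHom.id ℂ) (Ideal.span SX) (Ideal.span SZ)

/-- the forms which vanish on a suitable closed set of this kind -/
def dynForms (SX : Set (MvPolynomial (Fin (N + 1)) ℂ)) : Set (MvPolynomial (Fin (N + 1)) ℂ) :=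
  {G | ∃ S, Forms S ∧ Dyn SX S ∧ G ∈ S}

theorem dynForms_forms (SX : Set (MvPolynomial (Fin (N + 1)) ℂ)) : Forms (dynForms SX) := by
  rintro G ⟨S, hS, _, hG⟩
  exact hS G hG

theorem eval_mem {B : Subalgebra ℂ (ℕ → ℂ)} {x : ℕ → Fin (N + 1) → ℂ}
    (hx : ∀ j, (fun m => x m j) ∈ B) (G : MvPolynomial (Fin (N + 1)) ℂ) :
    (fun m => eval (x m) G) ∈ B := by
  induction G using MvPolynomial.induction_on with
  | C a =>
    simp only [eval_C]
    exact B.algebraMap_mem a
  | add p q hp hq =>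
    simp only [map_add]
    exact B.add_mem hp hq
  | mul_X p i hp =>
    simp only [map_mul, eval_X]
    exact B.mul_mem hp (hx i)

/-- **The smallest closed set.** -/
theorem dyn_dynForms {SX : Set (MvPolynomial (Fin (N + 1)) ℂ)} : Dyn SX (dynForms SX) := by
  classical
  intro B hB hF x hne hx hX hZ
  obtain ⟨T, hTS, hT⟩ := (Submodule.fg_span_iff_fg_span_finset_subset (dynForms SX)).1
    (IsNoetherian.noetherian (Submodule.span (MvPolynomial (Fin (N + 1)) ℂ) (dynForms SX)))
  have hex : ∃ G ∈ T, ∀ᶠ m in atTop, eval (x m) G ≠ 0 := by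
    by_contra hcon
    push Not at hcon
    have h1 : ∀ᶠ m in atTop, ∀ G ∈ T, eval (x m) G = 0 := by
      rw [Finset.eventually_all]
      intro G hG
      rcases hB.dich _ (eval_mem hx G) with h | h
      · exact h
      · exact absurd h (hcon G hG)
    obtain ⟨m, hm1, hm2⟩ := (h1.and hZ).exists
    apply hm2
    have h2 : Submodule.span (MvPolynomial (Fin (N + 1)) ℂ) (dynForms SX) ≤
        RingHom.ker (eval (x m) : MvPolynomial (Fin (N + 1)) ℂ →+* ℂ) := by
      rw [hT]
      exact Submodule.span_le.2 fun G hG => hm1 G hG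
    rw [isPtP_spanC (dynForms_forms SX)]
    intro G hG
    rw [aeval_eval]
    exact h2 (Submodule.subset_span hG)
  obtain ⟨G, hG, h0⟩ := hex
  obtain ⟨S, hS, hdyn, hGS⟩ := hTS hG
  refine hdyn B hB hF x hne hx hX ?_
  filter_upwards [h0] with m hm h1
  apply hm
  rw [isPtP_spanC hS] at h1
  rw [← aeval_eval]
  exact h1 G hGS

theorem dyn_iff {SX S : Set (MvPolynomial (Fin (N + 1)) ℂ)} (hS : Forms S) :
    Dyn SX S ↔ Zeros ℂ (dynForms SX) ⊆ Zeros ℂ S := by
  constructor
  · intro h x hx G hG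
    exact hx G ⟨S, hS, h, hG⟩
  · intro h B hB hF x hne hx hX hZ
    refine dyn_dynForms B hB hF x hne hx hX ?_
    filter_upwards [hZ] with m hm h1
    apply hm
    rw [isPtP_spanC hS]
    rw [isPtP_spanC (dynForms_forms SX)] at h1
    exact h h1

theorem dyn_self {SX : Set (MvPolynomial (Fin (N + 1)) ℂ)} : Dyn SX SX := by
  intro B hB hF x hne hx hX hZ
  obtain ⟨m, hm1, hm2⟩ := (hX.and hZ).exists
  exact absurd hm1 hm2

/-- sequences in a variety of general type -/
theorem not_generic {K : Type} [Field K] [Algebra ℂ K] [Algebra.EssFiniteType ℂ K] {w : ℕ}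
    (hw : 0 < w) (hgt : GeneralType ℂ K w) {y : Fin (N + 1) → K} (hy : y ≠ 0)
    (hgen : coords ℂ y = ⊤) {B : Subalgebra ℂ (ℕ → ℂ)} (hB : CoefField B) (hF : FinGen B)
    {x : ℕ → Fin (N + 1) → ℂ} (hx : ∀ j, (fun m => x m j) ∈ B)
    (hX : ∀ G : MvPolynomial (Fin (N + 1)) ℂ, IsForm G → aeval y G = 0 →
      ∀ᶠ m in atTop, eval (x m) G = 0) :
    ∃ G : MvPolynomial (Fin (N + 1)) ℂ, IsForm G ∧ aeval y G ≠ 0 ∧
      ∀ᶠ m in atTop, eval (x m) G = 0 := by
  classical
  by_contra hcon
  push Not at hcon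
  have hess := ess_of_finGen hB hF
  let s : KB B hB →ₐ[ℂ] KB B hB :=
    { shK hB with
      commutes' := fun c => by
        apply jK_inj hB
        change algebraMap (KB B hB) GG (shK hB (algebraMap ℂ (KB B hB) c)) = _
        rw [← shG_alg, ← IsScalarTower.algebraMap_apply, ← gg.commutes c, shG_gg, jK_apply,
          ← IsScalarTower.algebraMap_apply, ← gg.commutes c]
        rfl }
  have hs : ∀ z, (jK hB) (s z) = shG (jK hB z) := fun z => (shG_alg hB z).symm
  let z : Fin (N + 1) → KB B hB := fun j => cK hB ⟨_, hx j⟩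
  have hz : ∀ G : MvPolynomial (Fin (N + 1)) ℂ, jK hB (aeval z G) =
      gg fun m => eval (x m) G := by
    intro G
    have h2 := MvPolynomial.comp_aeval_apply (f := z) (jK hB) G
    rw [h2]
    have h3 : (fun i => jK hB (z i)) = fun i => gg fun m => x m i := by
      funext i
      exact jK_cK hB _
    rw [h3]
    have h4 := MvPolynomial.comp_aeval_apply (f := fun i => (fun m => x m i : ℕ → ℂ)) gg G
    rw [← h4]
    congr 1
    funext m
    have h7 := MvPolynomial.comp_aeval_apply (f := fun i => (fun m => x m i : ℕ → ℂ))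
      (Pi.evalAlgHom ℂ (fun _ : ℕ => ℂ) m) G
    have h8 : (aeval (fun i => (fun m => x m i : ℕ → ℂ)) G : ℕ → ℂ) m =
      aeval (fun i => x m i) G := h7
    rw [h8, MvPolynomial.aeval_eq_eval]
  have hyz : ∀ G : MvPolynomial (Fin (N + 1)) ℂ, IsForm G →
      (W602.GT.val y G = 0 ↔ W602.GT.val z G = 0) := by
    intro G hG
    have h1 : W602.GT.val z G = 0 ↔ ∀ᶠ m in atTop, eval (x m) G = 0 := by
      rw [← gg_zero, ← hz]
      exact (map_eq_zero_iff _ (jK_inj hB)).symm
    rw [h1]
    constructor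
    · exact fun h => hX G hG h
    · intro h
      by_contra h0
      exact hcon G hG h0 (h.mono fun m hm => not_not.2 hm)
  obtain ⟨i0, hi0⟩ := Function.ne_iff.1 hy
  have hi0' : y i0 ≠ 0 := hi0
  have hzi : z i0 ≠ 0 := by
    intro h0
    apply hi0'
    have h1 := (hyz (X i0) ⟨1, isHomogeneous_X _ _⟩).2 (by
      unfold W602.GT.val
      rw [aeval_X]
      exact h0)
    unfold W602.GT.val at h1
    rwa [aeval_X] at h1
  obtain ⟨φ, -⟩ := exists_embedding hi0' hzi hgen hyz
  obtain ⟨n, hn⟩ := trdeg_nat (KB B hB)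
  have hle : Algebra.trdeg ℂ K ≤ Algebra.trdeg ℂ (KB B hB) :=
    trdeg_le_of_injective φ φ.injective
  rw [hgt.1, hn] at hle
  have hle' : w ≤ n := by exact_mod_cast hle
  obtain ⟨n', rfl⟩ : ∃ n', n = n' + 1 := ⟨n - 1, by omega⟩
  exact no_gt hn hs φ hw hgt

end Pool.Agent.X332.GT
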