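import Mathlib
import Pool.Agent.X332.GT.Spec
import Pool.Agent.TH710.ND.Sp

/-!
The dynamical special set of projective varieties given by nested sums of high powers.
-/

set_option autoImplicit false

namespace Pool.Agent.X332.GT

open Filter Module MvPolynomial FF Pool.Agent.W602.GT Pool.Agent.TH143.HE
  Pool.Agent.TH143.TW Pool.Agent.TH143.DE Pool.Agent.TH143.GE
open Pool.Agent.H159R3.War Pool.Agent.H159R3.WarLog Pool.Agent.W603.BP
  Pool.Agent.W603.BPW Pool.Agent.W603.GW Pool.Agent.W603.GX Pool.Agent.W603.GY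
open Pool.Agent.TH710.ND (IsNested)

variable {n : ℕ} {ι κ : Type}

theorem lgt_gt {K : Type} [Field K] [Algebra ℂ K] {w : ℕ} {Bd : Place ℂ K → Prop}
    (h : LogGeneralType ℂ K w Bd) (hBd : ∀ P, ¬ Bd P) : GeneralType ℂ K w := by
  obtain ⟨h1, N, hN, ω, h2, -, h3, h4⟩ := h
  exact ⟨h1, N, hN, ω, h2, fun P hP => h3 P hP (hBd P), h4⟩

/-- **The dynamical special set** consists of the points on rational curves. -/
theorem dyn_gm [IsEmpty κ] {F : ι → MvPolynomial (Fin (n + 1)) ℂ}
    {Q : κ → MvPolynomial (Fin (n + 1)) ℂ} (hF : ∀ i, ∃ d, (F i).IsHomogeneous d)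
    (hcl : zcl F Q (gmPoints F Q) = gmPoints F Q)
    (hgt : ∀ (K : Type) [Field K] [Algebra ℂ K] (w : ℕ) (y : Fin (n + 1) → K)
      (G : MvPolynomial (Fin (n + 1)) ℂ), MapQ F Q K w y → (∀ x ∈ gmPoints F Q, eval x G = 0) →
      val y G ≠ 0 → GeneralType ℂ K w) :
    Zeros ℂ (dynForms (Set.range F)) \ {0} = gmPoints F Q := by
  have hX : Forms (Set.range F) := by
    rintro _ ⟨i, rfl⟩
    exact hF i
  apply Set.Subset.antisymm
  · rintro x ⟨hx, hx0⟩
    rw [Set.mem_singleton_iff] at hx0
    let SZ : Set (MvPolynomial (Fin (n + 1)) ℂ) :=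
      {G | (∃ d, G.IsHomogeneous d) ∧ ∀ x ∈ gmPoints F Q, eval x G = 0}
    have hSZ : Forms SZ := fun G hG => hG.1
    have h1 : Dyn (Set.range F) SZ := by
      refine fldPer_of_allGT ?_
      intro K _ _ w y hw hdim hy hgen hyX hyZ
      have h2 : ∃ G ∈ SZ, aeval y G ≠ 0 := by
        by_contra hcon
        push Not at hcon
        exact hyZ ((isPtP_span hSZ).2 hcon)
      obtain ⟨G, hG, hG0⟩ := h2
      refine hgt K w y G ⟨hy, fun i => (isPtP_span hX).1 hyX _ ⟨i, rfl⟩,
        fun j => isEmptyElim j, ?_, hdim⟩ hG.2 hG0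
      rw [hgen]
      refine ⟨fun z => ?_⟩
      exact isAlgebraic_algebraMap (⟨z, IntermediateField.mem_top⟩ : (⊤ : IntermediateField ℂ K))
    have h2 := (dyn_iff hSZ).1 h1 hx
    have h3 := (dyn_iff hX).1 (dyn_self (SX := Set.range F)) hx
    rw [← hcl]
    refine ⟨⟨hx0, fun i => ?_, fun j => isEmptyElim j⟩, fun G hG hG' => ?_⟩
    · rw [← aeval_eval]
      exact h3 _ ⟨i, rfl⟩
    · rw [← aeval_eval]
      exact h2 G ⟨hG, hG'⟩
  · rintro x ⟨v, t, ⟨hL, hv, a, b, ha, hb, hab⟩, ht, rfl⟩
    refine ⟨?_, (hv t ht).1⟩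
    choose M P hP using hL
    let T : ℕ := ∑ j, M j
    let p : Fin (n + 1) → Polynomial ℂ := fun j => P j * Polynomial.X ^ (T - M j)
    have hp : ∀ j u, u ≠ 0 → (p j).eval u = u ^ T * v u j := by
      intro j u hu
      have h1 : M j ≤ T := Finset.single_le_sum (f := M) (fun _ _ => Nat.zero_le _)
        (Finset.mem_univ j)
      simp only [p, Polynomial.eval_mul, Polynomial.eval_pow, Polynomial.eval_X]
      rw [← hP j u hu]
      have h2 : u ^ T = u ^ (T - M j) * u ^ M j := by
        rw [← pow_add]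
        congr 1
        omega
      rw [h2]
      ring
    have hform : ∀ G : MvPolynomial (Fin (n + 1)) ℂ, (∃ d, G.IsHomogeneous d) →
        ∀ u, u ≠ 0 → (eval (fun j => (p j).eval u) G = 0 ↔ eval (v u) G = 0) := by
      rintro G ⟨d, hd⟩ u hu
      have h1 : (fun j => (p j).eval u) = fun j => u ^ T * v u j := funext fun j => hp j u hu
      have h2 := eval₂_smul_homog (RingHom.id ℂ) (u ^ T) (v u) hd
      rw [h1]
      change eval₂ (RingHom.id ℂ) _ G = 0 ↔ eval₂ (RingHom.id ℂ) _ G = 0
      rw [h2]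
      constructor
      · intro h
        exact (mul_eq_zero.1 h).resolve_left (pow_ne_zero _ (pow_ne_zero _ hu))
      · intro h
        rw [h, mul_zero]
    have hall : ∀ u, (fun j => (p j).eval u) ∈ Zeros ℂ (Set.range F) := by
      rintro u _ ⟨i, rfl⟩
      rw [aeval_eval]
      let q : Polynomial ℂ := aeval p (F i)
      have hq : ∀ u, q.eval u = eval (fun j => (p j).eval u) (F i) := by
        intro u
        have h1 := MvPolynomial.comp_aeval_apply (f := p) (Polynomial.aeval u) (F i)
        rw [Polynomial.coe_aeval_eq_eval] at h1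
        rw [← aeval_eval]
        exact h1
      have hq0 : q = 0 := by
        apply Polynomial.eq_zero_of_infinite_isRoot
        refine Set.Infinite.mono (s := {0}ᶜ) (fun u hu => ?_) (Set.finite_singleton 0).infinite_compl
        change q.eval u = 0
        rw [hq]
        exact (hform (F i) (hF i) u hu).2 ((hv u hu).2.1 i)
      rw [← hq, hq0, Polynomial.eval_zero]
    have hnc : NonConst p := by
      by_contra hcon
      unfold NonConst at hcon
      push Not at hcon
      obtain ⟨j0, hj0⟩ := Function.ne_iff.1 (hv b hb).1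
      have hj0' : v b j0 ≠ 0 := hj0
      apply hab (v a j0 / v b j0)
      funext j
      have h1 := hcon j j0 a b
      rw [hp j a ha, hp j0 b hb, hp j0 a ha, hp j b hb] at h1
      have h2 : v a j * v b j0 = v a j0 * v b j := by
        apply mul_left_cancel₀ (mul_ne_zero (pow_ne_zero T ha) (pow_ne_zero T hb))
        linear_combination h1
      rw [Pi.smul_apply, smul_eq_mul, div_mul_eq_mul_div, eq_div_iff hj0', h2]
    intro G hG
    have hGf := dynForms_forms _ G hG
    rw [aeval_eval, ← hform G hGf t ht]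
    have h1 := rat_of_fldPer (dyn_dynForms (SX := Set.range F)) p
      (fun u => (isPtP_spanC hX).2 (hall u)) hnc t
    rw [isPtP_spanC (dynForms_forms _)] at h1
    have h2 := h1 G hG
    rwa [aeval_eval] at h2

end Pool.Agent.X332.GT
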