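import Mathlib
import Pool.Agent.X332.GT.NestSp
import Pool.Agent.X332.FR.Main
import Pool.Agent.X332.TO.Base
import Pool.Agent.Y719.SU.Def

/-!
Projective varieties over number fields which are given by nested sums of high powers.
-/

set_option autoImplicit false

namespace Pool.Agent.X332.GT

open Filter Module MvPolynomial FF Metric Pool.Agent.W602.GT Pool.Agent.TH143.HE
  Pool.Agent.TH143.TW Pool.Agent.TH143.DE Pool.Agent.TH143.GE
open Pool.Agent.H159R3.War Pool.Agent.H159R3.WarLog Pool.Agent.W603.BP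
  Pool.Agent.W603.BPW Pool.Agent.W603.GW Pool.Agent.W603.GX Pool.Agent.W603.GY
open Pool.Agent.TH710.ND (IsNested)
open Pool.Agent.Y719.SU (OnI Hyperbolic NoRat)

variable {R : Type} [CommRing R] {n : ℕ} {ι κ : Type}

/-- the forms over `ℂ` -/
noncomputable def fC (φ : R →+* ℂ) (G : ι → MvPolynomial (Fin (n + 1)) R) :
    ι → MvPolynomial (Fin (n + 1)) ℂ := fun i => map φ (G i)

theorem isPtP_range {A : Type} [CommRing A] (ψ : R →+* A)
    {G : ι → MvPolynomial (Fin (n + 1)) R} (hG : ∀ i, ∃ d, (G i).IsHomogeneous d)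
    (y : Fin (n + 1) → A) :
    IsPtP ψ (Ideal.span (Set.range G)) y ↔ ∀ i, eval₂ ψ y (G i) = 0 := by
  constructor
  · intro h i
    exact h _ (Ideal.subset_span ⟨i, rfl⟩) (hG i)
  · intro h H hH _
    have h1 : Ideal.span (Set.range G) ≤ RingHom.ker (eval₂Hom ψ y) := by
      refine Ideal.span_le.2 ?_
      rintro _ ⟨i, rfl⟩
      exact h i
    exact h1 hH

/-- the points of the images of the multiplicative group are on rational curves -/
theorem gm_in_of_rat {φ : R →+* ℂ} {G : ι → MvPolynomial (Fin (n + 1)) R}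
    (hG : ∀ i, ∃ d, (G i).IsHomogeneous d) {I' : Ideal (MvPolynomial (Fin (n + 1)) R)}
    (h : RatCurvesIn φ (Ideal.span (Set.range G)) I') (Q : κ → MvPolynomial (Fin (n + 1)) ℂ) :
    ∀ x ∈ gmPoints (fC φ G) Q, IsPtP φ I' x := by
  rintro x ⟨v, t, ⟨hL, hv, a, b, ha, hb, hab⟩, ht, rfl⟩
  choose M P hP using hL
  let T : ℕ := ∑ j, M j
  let p : Fin (n + 1) → Polynomial ℂ := fun j => P j * Polynomial.X ^ (T - M j)
  have hp : ∀ j u, u ≠ 0 → (p j).eval u = u ^ T * v u j := by
    intro j u hu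
    have h1 : M j ≤ T := Finset.single_le_sum (f := M) (fun _ _ => Nat.zero_le _)
      (Finset.mem_univ j)
    simp only [p, Polynomial.eval_mul, Polynomial.eval_pow, Polynomial.eval_X]
    rw [← hP j u hu]
    have h2 : u ^ T = u ^ (T - M j) * u ^ M j := by
      rw [← pow_add]
      congr 1
      omega
    rw [h2]
    ring
  have hpe : ∀ u, u ≠ 0 → (fun j => (p j).eval u) = fun j => u ^ T * v u j :=
    fun u hu => funext fun j => hp j u hu
  have hall : ∀ u, IsPtP φ (Ideal.span (Set.range G)) fun j => (p j).eval u := by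
    intro u
    rw [isPtP_range φ hG]
    intro i
    let q : Polynomial ℂ := aeval p (fC φ G i)
    have hq : ∀ u, q.eval u = eval₂ φ (fun j => (p j).eval u) (G i) := by
      intro u
      have h1 := MvPolynomial.comp_aeval_apply (f := p) (Polynomial.aeval u) (fC φ G i)
      rw [Polynomial.coe_aeval_eq_eval] at h1
      rw [← eval_map, ← aeval_eval]
      exact h1
    have hq0 : q = 0 := by
      apply Polynomial.eq_zero_of_infinite_isRoot
      refine Set.Infinite.mono (s := {0}ᶜ) (fun u hu => ?_) (Set.finite_singleton 0).infinite_compl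
      change q.eval u = 0
      obtain ⟨d, hd⟩ := hG i
      rw [hq, hpe u hu, eval₂_smul_homog φ (u ^ T) (v u) hd, ← eval_map]
      have h1 : eval (v u) (map φ (G i)) = 0 := (hv u hu).2.1 i
      rw [h1, mul_zero]
    rw [← hq, hq0, Polynomial.eval_zero]
  have hnc : NonConst p := by
    by_contra hcon
    unfold NonConst at hcon
    push Not at hcon
    obtain ⟨j0, hj0⟩ := Function.ne_iff.1 (hv b hb).1
    have hj0' : v b j0 ≠ 0 := hj0
    apply hab (v a j0 / v b j0)
    funext j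
    have h1 := hcon j j0 a b
    rw [hp j a ha, hp j0 b hb, hp j0 a ha, hp j b hb] at h1
    have h2 : v a j * v b j0 = v a j0 * v b j := by
      apply mul_left_cancel₀ (mul_ne_zero (pow_ne_zero T ha) (pow_ne_zero T hb))
      linear_combination h1
    rw [Pi.smul_apply, smul_eq_mul, div_mul_eq_mul_div, eq_div_iff hj0', h2]
  have h1 := h p hall hnc t
  rw [hpe t ht] at h1
  exact (isPtP_smul (ψ := φ) (J := I') (pow_ne_zero T ht) (v t)).1 h1

/-- Every variety with a generically finite map to `X_σ`, with image not contained in `Z_σ`, is of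
general type. Here `F` is the function field, `w` the dimension and `y` is the image of the generic
point in homogeneous coordinates. -/
def MapsGT (φ : R →+* ℂ) (I I' : Ideal (MvPolynomial (Fin (n + 1)) R)) : Prop :=
  ∀ (F : Type) [Field F] [Algebra ℂ F] (w : ℕ) (y : Fin (n + 1) → F),
    Algebra.trdeg ℂ F = w → y ≠ 0 → Algebra.IsAlgebraic (coords ℂ y) F →
    IsPtP ((algebraMap ℂ F).comp φ) I y → ¬ IsPtP ((algebraMap ℂ F).comp φ) I' y →
    GeneralType ℂ F w

theorem allGT_of_maps {φ : R →+* ℂ} {I I' : Ideal (MvPolynomial (Fin (n + 1)) R)}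
    (h : MapsGT φ I I') : AllGT φ I I' := by
  intro F _ _ w y _ hdim hy hgen hX hZ
  refine h F w y hdim hy ?_ hX hZ
  rw [hgen]
  refine ⟨fun z => ?_⟩
  exact isAlgebraic_algebraMap (⟨z, IntermediateField.mem_top⟩ : (⊤ : IntermediateField ℂ F))

theorem eval₂_comp_val {F : Type} [Field F] [Algebra ℂ F] (φ : R →+* ℂ) (y : Fin (n + 1) → F)
    (H : MvPolynomial (Fin (n + 1)) R) :
    eval₂ ((algebraMap ℂ F).comp φ) y H = val y (map φ H) := by
  unfold W602.GT.val
  rw [MvPolynomial.aeval_def, MvPolynomial.eval₂_map]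

section nested

variable {s N h : ℕ} {φ : R →+* ℂ} {G : ι → MvPolynomial (Fin (n + 1)) R}
  {I' : Ideal (MvPolynomial (Fin (n + 1)) R)}

/-- the empty boundary -/
def noQ (n : ℕ) : Empty → MvPolynomial (Fin (n + 1)) ℂ := fun j => j.elim

theorem maps_of_gm (hG : ∀ i, ∃ d, (G i).IsHomogeneous d)
    (hF : ∀ i, IsNested s N h (fC φ G i)) (hN : (n + 1) * ((h + 1) * (2 * s + 1) ^ 5) ≤ N)
    (hgm : ∀ x ∈ gmPoints (fC φ G) (noQ n), IsPtP φ I' x) :
    MapsGT φ (Ideal.span (Set.range G)) I' := by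
  obtain ⟨hNb, -, -⟩ := Pool.Agent.TH710.ND.bnd_le hN
  intro F _ _ w y hdim hy halg hX hZ
  obtain ⟨H, hH, hHf, hH0⟩ : ∃ H ∈ I', (∃ d, H.IsHomogeneous d) ∧
      eval₂ ((algebraMap ℂ F).comp φ) y H ≠ 0 := by
    by_contra hcon
    push Not at hcon
    exact hZ hcon
  rw [eval₂_comp_val] at hH0
  have hy' : MapQ (fC φ G) (noQ n) F w y := by
    refine ⟨hy, fun i => ?_, fun j => j.elim, halg, hdim⟩
    have h1 := (isPtP_range _ hG y).1 hX i
    rwa [eval₂_comp_val] at h1
  refine lgt_gt (Pool.Agent.TH710.ND.maps_lgt_gm hF (fun j => j.elim) hNb hy'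
    (G := map φ H) (fun x hx => ?_) hH0) ?_
  · rw [eval_map]
    exact hgm x hx H hH hHf
  · rintro P ⟨j, -⟩
    exact j.elim

theorem stab_of (hF : ∀ i, IsNested s N h (fC φ G i))
    (hN : (n + 1) * ((h + 1) * (2 * s + 1) ^ 5) ≤ N) :
    ∀ i, Pool.Agent.TH710.NW.Stab (fC φ G i) := by
  obtain ⟨-, hN2, hN1⟩ := Pool.Agent.TH710.ND.bnd_le hN
  exact fun i => (Pool.Agent.TH710.ND.tower_of hN2 hN1 (hF i)).stab

/-- Every holomorphic map from the punctured disc to `X_σ` with an essential singularity has its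
image in `Z_σ`. -/
def PicardMod (φ : R →+* ℂ) (I I' : Ideal (MvPolynomial (Fin (n + 1)) R)) : Prop :=
  ∀ f : ℂ → Fin (n + 1) → ℂ, DifferentiableOn ℂ f (ball 0 1 \ {0}) →
    (∀ z ∈ ball (0 : ℂ) 1 \ {0}, f z ≠ 0 ∧ IsPtP φ I (f z)) → ¬ Extends f →
    ∀ z ∈ ball (0 : ℂ) 1 \ {0}, IsPtP φ I' (f z)

theorem picard_of_gm (hG : ∀ i, ∃ d, (G i).IsHomogeneous d)
    (hF : ∀ i, IsNested s N h (fC φ G i)) (hN : (n + 1) * ((h + 1) * (2 * s + 1) ^ 5) ≤ N)
    (hgm : ∀ x ∈ gmPoints (fC φ G) (noQ n), IsPtP φ I' x) :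
    PicardMod φ (Ideal.span (Set.range G)) I' := by
  intro f hd hX hE z hz
  apply hgm
  rw [← (Pool.Agent.TH710.NW.pic_eq (fC φ G) (noQ n) (stab_of hF hN) (fun j => j.elim)).2]
  refine ⟨f, z, ⟨hd, fun u hu => ⟨(hX u hu).1, fun i => ?_, fun j => j.elim⟩⟩, hE, hz, rfl⟩
  have h1 := (isPtP_range φ hG _).1 (hX u hu).2 i
  rw [← eval_map] at h1
  exact h1

theorem gm_of_picard (hG : ∀ i, ∃ d, (G i).IsHomogeneous d)
    (hF : ∀ i, IsNested s N h (fC φ G i)) (hN : (n + 1) * ((h + 1) * (2 * s + 1) ^ 5) ≤ N)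
    (hP : PicardMod φ (Ideal.span (Set.range G)) I') :
    ∀ x ∈ gmPoints (fC φ G) (noQ n), IsPtP φ I' x := by
  intro x hx
  rw [← (Pool.Agent.TH710.NW.pic_eq (fC φ G) (noQ n) (stab_of hF hN) (fun j => j.elim)).2] at hx
  obtain ⟨f, z, ⟨hd, hX⟩, hE, hz, rfl⟩ := hx
  refine hP f hd (fun u hu => ⟨(hX u hu).1, (isPtP_range φ hG _).2 fun i => ?_⟩) hE z hz
  rw [← eval_map]
  exact (hX u hu).2.1 i

end nested

section numberfield

variable {K : Type} [Field K] {s N h : ℕ} {σ : K →+* ℂ}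
  {G : ι → MvPolynomial (Fin (n + 1)) K} {I' : Ideal (MvPolynomial (Fin (n + 1)) K)}

theorem hyp_of_gm (hG : ∀ i, ∃ d, (G i).IsHomogeneous d)
    (hF : ∀ i, IsNested s N h (fC σ G i)) (hN : (n + 1) * ((h + 1) * (2 * s + 1) ^ 5) ≤ N)
    (hgm : ∀ x ∈ gmPoints (fC σ G) (noQ n), IsPtP σ I' x) :
    Hyperbolic σ (Ideal.span (Set.range G)) I' := by
  intro f hd hne hX hnc z
  apply hgm
  rw [← Pool.Agent.TH710.NW.special (fC σ G) (noQ n) (stab_of hF hN) (fun j => j.elim)]
  have hpt : ∀ z, f z ∈ Pts (fC σ G) (noQ n) := by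
    intro z
    refine ⟨hne z, fun i => ?_, fun j => j.elim⟩
    have h1 := (isPtP_range σ hG _).1 (hX z) i
    rw [← eval_map] at h1
    exact h1
  exact ⟨hpt z, fun H _ hH' => hH' _ ⟨f, z, ⟨hd, hpt, hnc⟩, rfl⟩⟩

end numberfield

section points

variable {K : Type} [Field K]

theorem isPtP_emb {L : Type} [Field L] [Algebra K L] {σ : K →+* ℂ} {τ : L →+* ℂ}
    (hτ : τ.comp (algebraMap K L) = σ) (J : Ideal (MvPolynomial (Fin (n + 1)) K))
    (y : Fin (n + 1) → L) : IsPtP σ J (fun j => τ (y j)) ↔ IsPtP (algebraMap K L) J y := by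
  have h1 : ∀ G : MvPolynomial (Fin (n + 1)) K,
      eval₂ σ (fun j => τ (y j)) G = τ (eval₂ (algebraMap K L) y G) := by
    intro G
    rw [← hτ]
    exact (MvPolynomial.eval₂_comp_left τ (algebraMap K L) y G).symm
  constructor
  · intro h G hG hd
    have h2 := h G hG hd
    rw [h1, map_eq_zero_iff τ τ.injective] at h2
    exact h2
  · intro h G hG hd
    rw [h1, h G hG hd, map_zero]

/-- eventually periodic sequences of points have finitely many terms -/
theorem finite_of_per {L : Type} [Field L] {τ : L →+* ℂ} {x : ℕ → Fin (n + 1) → L}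
    (hx : ∀ m, x m ≠ 0) (h : Per fun m j => τ (x m j)) :
    (Set.range fun m => Projectivization.mk L (x m) (hx m)).Finite := by
  obtain ⟨k, m0, hk, hper⟩ := h
  have hstep : ∀ m, m0 ≤ m → Projectivization.mk L (x (m + k)) (hx (m + k)) =
      Projectivization.mk L (x m) (hx m) := by
    intro m hm
    rw [Projectivization.mk_eq_mk_iff']
    obtain ⟨i0, hi0⟩ := Function.ne_iff.1 (hx m)
    have hi0' : x m i0 ≠ 0 := hi0
    refine ⟨x (m + k) i0 / x m i0, ?_⟩
    funext j
    have h1 : x (m + k) i0 * x m j = x (m + k) j * x m i0 := by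
      apply τ.injective
      rw [map_mul, map_mul]
      exact hper m hm i0 j
    rw [Pi.smul_apply, smul_eq_mul, div_mul_eq_mul_div, h1, mul_div_assoc, div_self hi0', mul_one]
  refine ((Set.finite_lt_nat (m0 + k)).image fun m => Projectivization.mk L (x m) (hx m)).subset ?_
  rintro _ ⟨m, rfl⟩
  induction m using Nat.strong_induction_on with
  | _ m ih =>
    rcases Nat.lt_or_ge m (m0 + k) with h1 | h1
    · exact ⟨m, h1, rfl⟩
    · have h2 := hstep (m - k) (by omega)
      have h3 : m - k + k = m := Nat.sub_add_cancel (by omega)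
      simp only [h3] at h2
      have h4 : Projectivization.mk L (x m) (hx m) ∈
          (fun m => Projectivization.mk L (x m) (hx m)) '' {i | i < m0 + k} := by
        rw [h2]
        exact ih (m - k) (by omega)
      exact h4

theorem hom_of_map {σ : K →+* ℂ} {G : MvPolynomial (Fin (n + 1)) K}
    (h : ∃ d, (MvPolynomial.map σ G).IsHomogeneous d) : ∃ d, G.IsHomogeneous d := by
  obtain ⟨d, hd⟩ := h
  refine ⟨d, fun m hm => hd ?_⟩
  rw [coeff_map]
  exact (map_ne_zero_iff σ σ.injective).2 hm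

end points

end Pool.Agent.X332.GT
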